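import Mathlib

set_option autoImplicit false
open MeasureTheory AddCircle Filter Topology
open scoped ENNReal ComplexConjugate InnerProductSpace

namespace Pool.Agent.LibHinf

instance twoPiPos : Fact (0 < 2 * Real.pi) := ⟨Real.two_pi_pos⟩

/-- The circle. -/
abbrev TT : Type := AddCircle (2 * Real.pi)

/-- Normalized Haar measure. -/
noncomputable abbrev mm : Measure TT := haarAddCircle

/-- Vanishing of the negative Fourier coefficients. -/
def Ana (f : TT → ℂ) : Prop := ∀ k : ℤ, k < 0 → fourierCoeff f k = 0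

theorem Ana.congr {f g : TT → ℂ} (h : f =ᵐ[mm] g) (hf : Ana f) : Ana g := by
  intro k hk
  rw [← hf k hk]
  exact congrFun (fourierCoeff_congr_ae h.symm) k

theorem hasSum_mul {f g : TT → ℂ} (hf : MemLp f ∞ mm) (hg : MemLp g 2 mm) (k : ℤ) :
    HasSum (fun i => fourierCoeff g i * fourierCoeff f (k - i))
      (fourierCoeff (fun t => f t * g t) k) := by
  have hw : MemLp (fun t => conj (f t) * fourier k t) 2 mm := by
    have h1 : MemLp (fun t => conj (f t)) ∞ mm := hf.star
    have h2 : MemLp (fun t : TT => (fourier k t : ℂ)) ∞ mm :=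
      (BoundedContinuousFunction.mkOfCompact (fourier k)).memLp_top
    have h3 : MemLp (fun t => conj (f t) * fourier k t) ∞ mm := by
      have := h2.mul (r := ∞) h1
      refine this.ae_eq (Eventually.of_forall fun t => rfl)
    exact h3.mono_exponent le_top
  have h1 := (hasSum_fourier_series_L2 (hg.toLp g)).mapL (innerSL ℂ (hw.toLp _))
  have hgc : fourierCoeff (hg.toLp g : TT → ℂ) = fourierCoeff g := by
    funext i
    exact congrFun (fourierCoeff_congr_ae hg.coeFn_toLp) i
  have h2 : (innerSL ℂ (hw.toLp _)) (hg.toLp g) = fourierCoeff (fun t => f t * g t) k := by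
    rw [innerSL_apply_apply, L2.inner_def, fourierCoeff]
    apply integral_congr_ae
    filter_upwards [hw.coeFn_toLp, hg.coeFn_toLp] with t ht1 ht2
    rw [ht1, ht2, fourier_neg]
    simp only [RCLike.inner_apply, map_mul, RCLike.conj_conj, smul_eq_mul, Complex.conj_conj]
    ring
  have h3 : ∀ i, (innerSL ℂ (hw.toLp _)) (fourierCoeff (hg.toLp g : TT → ℂ) i • fourierLp 2 i) =
      fourierCoeff g i * fourierCoeff f (k - i) := by
    intro i
    rw [map_smul, hgc, smul_eq_mul]
    congr 1
    rw [innerSL_apply_apply, L2.inner_def, fourierCoeff]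
    apply integral_congr_ae
    filter_upwards [hw.coeFn_toLp, coeFn_fourierLp (T := 2 * Real.pi) 2 i] with t ht1 ht2
    rw [ht1, ht2]
    have : (-(k - i)) = -k + i := by ring
    rw [this, fourier_add, fourier_neg]
    simp only [RCLike.inner_apply, map_mul, RCLike.conj_conj, smul_eq_mul, Complex.conj_conj]
    ring
  simp_rw [h3] at h1
  rw [h2] at h1
  exact h1

theorem Ana.mul {f g : TT → ℂ} (hf : MemLp f ∞ mm) (hg : MemLp g 2 mm) (h1 : Ana f) (h2 : Ana g) :
    Ana (fun t => f t * g t) := by
  intro k hk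
  have h := hasSum_mul hf hg k
  have h0 : (fun i => fourierCoeff g i * fourierCoeff f (k - i)) = fun _ => 0 := by
    funext i
    rcases lt_or_ge i 0 with hi | hi
    · rw [h2 i hi, zero_mul]
    · rw [h1 (k - i) (by omega), mul_zero]
  rw [h0] at h
  exact h.unique hasSum_zero

theorem Ana.mul_mean {f g : TT → ℂ} (hf : MemLp f ∞ mm) (hg : MemLp g 2 mm) (h1 : Ana f)
    (h2 : Ana g) :
    fourierCoeff (fun t => f t * g t) 0 = fourierCoeff f 0 * fourierCoeff g 0 := by
  have h := hasSum_mul hf hg 0
  have h0 : ∀ i ≠ 0, fourierCoeff g i * fourierCoeff f (0 - i) = 0 := by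
    intro i hi
    rcases lt_or_gt_of_ne hi with hi | hi
    · rw [h2 i hi, zero_mul]
    · rw [h1 (0 - i) (by omega), mul_zero]
  have h3 := hasSum_single (0 : ℤ) h0
  rw [h.unique h3, sub_zero, mul_comm]

/-- A function all of whose Fourier coefficients vanish is zero. -/
theorem eq_zero_of_coeff {f : TT → ℂ} (hf : MemLp f 2 mm) (h : ∀ k, fourierCoeff f k = 0) :
    f =ᵐ[mm] 0 := by
  have h1 := hasSum_fourier_series_L2 (hf.toLp f)
  have hgc : fourierCoeff (hf.toLp f : TT → ℂ) = fourierCoeff f := by
    funext i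
    exact congrFun (fourierCoeff_congr_ae hf.coeFn_toLp) i
  simp_rw [hgc, h, zero_smul] at h1
  have h2 := h1.unique hasSum_zero
  have h3 := hf.coeFn_toLp
  rw [h2] at h3
  exact h3.symm.trans (Lp.coeFn_zero _ _ _)

end Pool.Agent.LibHinf
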