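import Mathlib

set_option autoImplicit false
open Filter Topology Metric

namespace Pool.Agent.LibHinf

theorem separation {V E : Type*} [AddCommGroup V] [Module ℝ V] [NormedAddCommGroup E]
    [NormedSpace ℝ E] [FiniteDimensional ℝ E] (Λ : V →ₗ[ℝ] E) (G : Set V) (hG : Convex ℝ G)
    (h0 : (0 : V) ∈ G)
    (h : ∀ ℓ : E →ₗ[ℝ] ℝ, (∀ u ∈ G, 0 ≤ ℓ (Λ u)) → ∀ u, ℓ (Λ u) = 0) (v : V) :
    ∃ t : ℝ, 0 < t ∧ t ≤ 1 ∧ ∃ u ∈ G, Λ u = -(t • Λ v) := by
  set W := LinearMap.range Λ with hW
  set C : Set W := Λ.rangeRestrict '' G with hC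
  have hCc : Convex ℝ C := hG.linear_image _
  have h0C : (0 : W) ∈ C := ⟨0, h0, map_zero _⟩
  have hW' : ∀ f : W →ₗ[ℝ] ℝ, (∀ w ∈ C, 0 ≤ f w) → f = 0 := by
    intro f hf
    obtain ⟨g, hg⟩ := LinearMap.exists_extend f
    have hg' : ∀ w : W, g w = f w := fun w => congrArg (fun l : W →ₗ[ℝ] ℝ => l w) hg
    have h1 := h g (fun u hu => by
      have h2 := hf (Λ.rangeRestrict u) ⟨u, hu, rfl⟩
      rw [← hg'] at h2
      exact h2)
    ext w
    obtain ⟨u, hu⟩ := w.2
    have h3 : w = Λ.rangeRestrict u := Subtype.ext hu.symm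
    rw [h3, ← hg']
    exact h1 u
  have hspan : Submodule.span ℝ C = ⊤ := by
    by_contra hne
    obtain ⟨f, hf0, hf⟩ := Submodule.exists_le_ker_of_lt_top _ (lt_top_iff_ne_top.2 hne)
    apply hf0
    apply hW'
    intro w hw
    exact (hf (Submodule.subset_span hw)).ge
  have hint : (interior C).Nonempty := by
    rw [hCc.interior_nonempty_iff_affineSpan_eq_top,
      AffineSubspace.affineSpan_eq_top_iff_vectorSpan_eq_top_of_nonempty ℝ W W ⟨0, h0C⟩,
      vectorSpan_eq_span_vsub_set_right ℝ h0C]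
    simpa using hspan
  have h0i : (0 : W) ∈ interior C := by
    by_contra hne
    obtain ⟨f, hf⟩ := geometric_hahn_banach_open_point hCc.interior isOpen_interior hne
    rw [map_zero] at hf
    have h1 : ∀ w ∈ C, f w ≤ 0 := by
      intro w hw
      have h2 : w ∈ closure (interior C) := by
        rw [hCc.closure_interior_eq_closure_of_nonempty_interior hint]
        exact subset_closure hw
      have h3 : closure (interior C) ⊆ {w | f w ≤ 0} :=
        closure_minimal (fun a ha => (hf a ha).le) (isClosed_le f.continuous continuous_const)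
      exact h3 h2
    have h2 : (-(f : W →ₗ[ℝ] ℝ)) = 0 := by
      apply hW'
      intro w hw
      have := h1 w hw
      change 0 ≤ -(f w)
      linarith
    obtain ⟨a, ha⟩ := hint
    have h3 := hf a ha
    have h4 : -(f a) = 0 := congrArg (fun l : W →ₗ[ℝ] ℝ => l a) h2
    linarith
  have hcont : Tendsto (fun t : ℝ => -(t • Λ.rangeRestrict v)) (𝓝 0) (𝓝 0) := by
    have h1 : Continuous fun t : ℝ => -(t • Λ.rangeRestrict v) := by fun_prop
    have h2 := h1.tendsto 0
    simpa using h2
  have hev := hcont.eventually (isOpen_interior.mem_nhds h0i)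
  rw [Metric.eventually_nhds_iff] at hev
  obtain ⟨δ, hδ, hball⟩ := hev
  refine ⟨min (δ / 2) 1, by positivity, min_le_right _ _, ?_⟩
  have h1 : -((min (δ / 2) 1) • Λ.rangeRestrict v) ∈ interior C := by
    apply hball
    rw [Real.dist_eq, sub_zero, abs_of_pos (by positivity)]
    have := min_le_left (δ / 2) 1
    linarith
  obtain ⟨u, hu, hu'⟩ := interior_subset h1
  exact ⟨u, hu, congrArg Subtype.val hu'⟩

end Pool.Agent.LibHinf
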