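import Mathlib
import Pool.Agent.LibHinf.Basic

set_option autoImplicit false
open MeasureTheory AddCircle Filter Topology Metric
open scoped ENNReal ComplexConjugate InnerProductSpace

namespace Pool.Agent.LibHinf

/-- The coordinate function on the circle. -/
noncomputable def ee (t : TT) : ℂ := fourier 1 t

theorem ee_continuous : Continuous ee := (fourier 1).continuous

theorem ee_norm (t : TT) : ‖ee t‖ = 1 := by
  unfold ee
  rw [fourier_apply]
  exact Circle.norm_coe _

theorem ee_pow (t : TT) (n : ℕ) : ee t ^ n = fourier (n : ℤ) t := by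
  induction n with
  | zero => simp
  | succ n ih =>
    rw [pow_succ, ih]
    unfold ee
    rw [← fourier_add]
    push_cast
    rfl

theorem ee_coe (x : ℝ) : ee (x : TT) = circleMap 0 1 x := by
  unfold ee
  rw [fourier_coe_apply, circleMap]
  have : (Real.pi : ℂ) ≠ 0 := by exact_mod_cast Real.pi_ne_zero
  push_cast
  rw [zero_add, one_mul]
  congr 1
  field_simp

theorem mean_holo {G : ℂ → ℂ} (hG : DiffContOnCl ℂ G (ball 0 1)) :
    ∫ t, G (ee t) ∂mm = G 0 := by
  have h1 : ∫ t, G (ee t) ∂mm = fourierCoeff (fun t : TT => G (ee t)) 0 := by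
    rw [fourierCoeff]
    simp
  rw [h1, fourierCoeff_eq_intervalIntegral _ _ 0]
  have h2 : DiffContOnCl ℂ G (ball 0 |1|) := by simpa using hG
  rw [← h2.circleAverage, Real.circleAverage_def]
  simp only [neg_zero, fourier_zero, one_smul, zero_add, ee_coe, one_div]

theorem coeff_holo {G : ℂ → ℂ} (hG : DiffContOnCl ℂ G (ball 0 1)) :
    Ana (fun t => G (ee t)) := by
  intro k hk
  obtain ⟨n, rfl⟩ : ∃ n : ℕ, k = -(n : ℤ) := ⟨k.natAbs, by omega⟩
  have hn : n ≠ 0 := by omega
  have h1 : DiffContOnCl ℂ (fun z : ℂ => z ^ n * G z) (ball 0 1) := by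
    have h2 : DiffContOnCl ℂ (fun z : ℂ => z ^ n) (ball 0 1) := (differentiable_pow n).diffContOnCl
    exact h2.smul hG
  have h3 := mean_holo h1
  rw [fourierCoeff]
  simp only [neg_neg, ← ee_pow, smul_eq_mul]
  rw [h3, zero_pow hn, zero_mul]

/-- Values of a polynomial on the circle. -/
noncomputable def pc (q : Polynomial ℂ) : C(TT, ℂ) :=
  ⟨fun t => q.eval (ee t), q.continuous.comp ee_continuous⟩

theorem pc_apply (q : Polynomial ℂ) (t : TT) : pc q t = q.eval (ee t) := rfl

theorem sphere_ee {z : ℂ} (hz : ‖z‖ = 1) : ∃ t : TT, ee t = z := by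
  refine ⟨((Complex.arg z : ℝ) : TT), ?_⟩
  rw [ee_coe, circleMap, zero_add]
  have := Complex.norm_mul_exp_arg_mul_I z
  rw [hz] at this
  exact this

theorem re_nonneg_of_circle {q : Polynomial ℂ} (h : ∀ t : TT, 0 ≤ (pc q t).re) {z : ℂ}
    (hz : z ∈ closedBall (0 : ℂ) 1) : 0 ≤ (q.eval z).re := by
  have hd : DiffContOnCl ℂ (fun z => Complex.exp (-q.eval z)) (ball 0 1) :=
    (q.differentiable.neg.cexp).diffContOnCl
  have h1 := Complex.norm_le_of_forall_mem_frontier_norm_le (isBounded_ball) hd (C := 1) (by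
    intro w hw
    rw [frontier_ball _ one_ne_zero, mem_sphere_zero_iff_norm] at hw
    obtain ⟨t, ht⟩ := sphere_ee hw
    rw [Complex.norm_exp, Complex.neg_re, ← ht]
    have := h t
    rw [pc_apply] at this
    exact Real.exp_le_one_iff.2 (by linarith)) (z := z) (by
      rw [closure_ball _ one_ne_zero]; exact hz)
  rw [Complex.norm_exp, Complex.neg_re, Real.exp_le_one_iff] at h1
  linarith

/-- `L²` functions with nonnegative real part in the Hardy space. -/
def IsPos (F : TT → ℂ) : Prop :=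
  MemLp F 2 mm ∧ (∀ᵐ t ∂mm, 0 ≤ (F t).re) ∧ ∃ q : ℕ → Polynomial ℂ, (∀ n t, 0 ≤ (pc (q n) t).re) ∧
    Tendsto (fun n => ∫ t, ‖pc (q n) t - F t‖ ∂mm) atTop (𝓝 0)

theorem fourierCoeff_sub_le {f g : TT → ℂ} (hf : Integrable f mm) (hg : Integrable g mm) (k : ℤ) :
    ‖fourierCoeff f k - fourierCoeff g k‖ ≤ ∫ t, ‖f t - g t‖ ∂mm := by
  rw [fourierCoeff, fourierCoeff, ← integral_sub (hf.fourier_smul _) (hg.fourier_smul _)]
  refine (norm_integral_le_integral_norm _).trans (le_of_eq ?_)
  apply integral_congr_ae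
  refine Eventually.of_forall fun t => ?_
  change ‖fourier (-k) t • f t - fourier (-k) t • g t‖ = ‖f t - g t‖
  rw [← smul_sub, norm_smul, fourier_apply, Circle.norm_coe, one_mul]

theorem psi_main {F : TT → ℂ} (hF : IsPos F) {Ψ : ℂ → ℂ} {L : ℝ} (hL : 0 ≤ L)
    (hd : ∀ z : ℂ, 0 ≤ z.re → DifferentiableAt ℂ Ψ z)
    (hlip : ∀ z w : ℂ, 0 ≤ z.re → 0 ≤ w.re → ‖Ψ z - Ψ w‖ ≤ L * ‖z - w‖)
    (hm : Integrable (fun t => Ψ (F t)) mm) :
    Ana (fun t => Ψ (F t)) ∧ fourierCoeff (fun t => Ψ (F t)) 0 = Ψ (fourierCoeff F 0) ∧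
      0 ≤ (fourierCoeff F 0).re := by
  obtain ⟨hF2, hre, q, hq, hlim⟩ := hF
  have hFint : Integrable F mm := hF2.integrable one_le_two
  have hqint : ∀ n, Integrable (pc (q n)) mm := fun n =>
    (pc (q n)).continuous.integrable_of_hasCompactSupport (HasCompactSupport.of_compactSpace _)
  have hdc : ∀ n, DiffContOnCl ℂ (fun z => Ψ ((q n).eval z)) (ball 0 1) := by
    intro n
    have h1 : ∀ z ∈ closedBall (0 : ℂ) 1, DifferentiableAt ℂ (fun z => Ψ ((q n).eval z)) z := by
      intro z hz
      exact (hd _ (re_nonneg_of_circle (hq n) hz)).comp z (q n).differentiable.differentiableAt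
    refine ⟨fun z hz => (h1 z (ball_subset_closedBall hz)).differentiableWithinAt, fun z hz => ?_⟩
    rw [closure_ball _ one_ne_zero] at hz
    exact (h1 z hz).continuousAt.continuousWithinAt
  have hΨc : ∀ n, Continuous fun t => Ψ (pc (q n) t) := by
    intro n
    rw [continuous_iff_continuousAt]
    intro t
    exact ContinuousAt.comp (hd _ (hq n t)).continuousAt (pc (q n)).continuous.continuousAt
  have hΨint : ∀ n, Integrable (fun t => Ψ (pc (q n) t)) mm := fun n =>
    (hΨc n).integrable_of_hasCompactSupport (HasCompactSupport.of_compactSpace _)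
  have hbd : ∀ n k, ‖fourierCoeff (fun t => Ψ (pc (q n) t)) k - fourierCoeff (fun t => Ψ (F t)) k‖ ≤
      L * ∫ t, ‖pc (q n) t - F t‖ ∂mm := by
    intro n k
    refine (fourierCoeff_sub_le (hΨint n) hm k).trans ?_
    rw [← integral_const_mul]
    apply integral_mono_ae ((hΨint n).sub hm).norm (((hqint n).sub hFint).norm.const_mul L)
    filter_upwards [hre] with t ht
    exact hlip _ _ (hq n t) ht
  have hlim2 : ∀ k, Tendsto (fun n => fourierCoeff (fun t => Ψ (pc (q n) t)) k) atTop
      (𝓝 (fourierCoeff (fun t => Ψ (F t)) k)) := by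
    intro k
    rw [tendsto_iff_norm_sub_tendsto_zero]
    refine squeeze_zero (fun n => norm_nonneg _) (fun n => hbd n k) ?_
    simpa using hlim.const_mul L
  have hmean : Tendsto (fun n => (q n).eval 0) atTop (𝓝 (fourierCoeff F 0)) := by
    rw [tendsto_iff_norm_sub_tendsto_zero]
    refine squeeze_zero (fun n => norm_nonneg _) (fun n => ?_) hlim
    have h1 : (q n).eval 0 = fourierCoeff (pc (q n)) 0 := by
      have h2 := mean_holo (G := fun z => (q n).eval z) (q n).differentiable.diffContOnCl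
      rw [← h2, fourierCoeff]
      simp only [neg_zero, fourier_zero, one_smul]
      rfl
    rw [h1]
    exact fourierCoeff_sub_le (hqint n) hFint 0
  have hre0 : 0 ≤ (fourierCoeff F 0).re := by
    refine ge_of_tendsto' ((Complex.continuous_re.tendsto _).comp hmean) fun n => ?_
    exact re_nonneg_of_circle (hq n) (mem_closedBall_self zero_le_one)
  refine ⟨fun k hk => ?_, ?_, hre0⟩
  · refine tendsto_nhds_unique (hlim2 k) ?_
    have : (fun n => fourierCoeff (fun t => Ψ (pc (q n) t)) k) = fun _ => 0 := by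
      funext n
      exact coeff_holo (hdc n) k hk
    rw [this]
    exact tendsto_const_nhds
  · refine tendsto_nhds_unique (hlim2 0) ?_
    have h1 : (fun n => fourierCoeff (fun t => Ψ (pc (q n) t)) 0) = fun n => Ψ ((q n).eval 0) := by
      funext n
      have h2 := mean_holo (hdc n)
      rw [← h2, fourierCoeff]
      simp only [neg_zero, fourier_zero, one_smul]
      rfl
    rw [h1]
    exact (hd _ hre0).continuousAt.tendsto.comp hmean

end Pool.Agent.LibHinf
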