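import Mathlib
import Pool.Agent.LibHinf.Poly

set_option autoImplicit false
open MeasureTheory AddCircle Filter Topology Metric
open scoped ENNReal ComplexConjugate InnerProductSpace

namespace Pool.Agent.LibHinf

theorem span_re {p : C(TT, ℂ)} (hp : p ∈ Submodule.span ℂ (Set.range (@fourier (2 * Real.pi)))) :
    ∀ c : ℂ, ∃ q : Polynomial ℂ, ∀ t, (pc q t).re = (c * p t).re := by
  induction hp using Submodule.span_induction with
  | mem x hx =>
    obtain ⟨n, rfl⟩ := hx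
    intro c
    rcases le_or_gt 0 n with hn | hn
    · obtain ⟨m, rfl⟩ := Int.eq_ofNat_of_zero_le hn
      refine ⟨Polynomial.C c * Polynomial.X ^ m, fun t => ?_⟩
      rw [pc_apply]
      simp [ee_pow]
    · obtain ⟨m, rfl⟩ : ∃ m : ℕ, n = -(m : ℤ) := ⟨n.natAbs, by omega⟩
      refine ⟨Polynomial.C (conj c) * Polynomial.X ^ m, fun t => ?_⟩
      rw [pc_apply]
      simp only [Polynomial.eval_mul, Polynomial.eval_C, Polynomial.eval_pow, Polynomial.eval_X,
        ee_pow, fourier_neg]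
      have : (c * conj ((fourier (m : ℤ)) t)).re = (conj (c * conj ((fourier (m : ℤ)) t))).re := by
        rw [Complex.conj_re]
      rw [this, map_mul, Complex.conj_conj]
  | zero => exact fun c => ⟨0, fun t => by simp [pc_apply]⟩
  | add x y _ _ hx hy =>
    intro c
    obtain ⟨q1, h1⟩ := hx c
    obtain ⟨q2, h2⟩ := hy c
    refine ⟨q1 + q2, fun t => ?_⟩
    have h3 := h1 t
    have h4 := h2 t
    rw [pc_apply] at h3 h4 ⊢
    rw [Polynomial.eval_add, Complex.add_re, h3, h4, ContinuousMap.add_apply, mul_add,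
      Complex.add_re]
  | smul a x _ hx =>
    intro c
    obtain ⟨q, hq⟩ := hx (c * a)
    refine ⟨q, fun t => ?_⟩
    rw [hq t, ContinuousMap.smul_apply, smul_eq_mul, mul_assoc]

/-- Real parts of values of polynomials. -/
noncomputable def pr (q : Polynomial ℂ) : C(TT, ℝ) :=
  ⟨fun t => (pc q t).re, Complex.continuous_re.comp (pc q).continuous⟩

theorem pr_apply (q : Polynomial ℂ) (t : TT) : pr q t = (pc q t).re := rfl

theorem uniform_approx (v : C(TT, ℝ)) (hv : ∀ t, 0 ≤ v t) {ε : ℝ} (hε : 0 < ε) :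
    ∃ q : Polynomial ℂ, (q.eval 0).im = 0 ∧ (∀ t, 0 ≤ (pc q t).re) ∧ ∀ t, |(pc q t).re - v t| ≤ ε := by
  set vc : C(TT, ℂ) := ⟨fun t => (v t : ℂ), Complex.continuous_ofReal.comp v.continuous⟩ with hvc
  have h1 : vc ∈ (Submodule.span ℂ (Set.range (@fourier (2 * Real.pi)))).topologicalClosure := by
    rw [span_fourier_closure_eq_top]
    trivial
  have h2 : vc ∈ closure ((Submodule.span ℂ (Set.range (@fourier (2 * Real.pi))) :
    Submodule ℂ C(TT, ℂ)) : Set C(TT, ℂ)) := h1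
  rw [Metric.mem_closure_iff] at h2
  obtain ⟨p, hp, hd⟩ := h2 (ε / 2) (by positivity)
  obtain ⟨q, hq⟩ := span_re hp 1
  have h3 : ∀ t, |v t - (p t).re| ≤ ε / 2 := by
    intro t
    have h4 : ‖vc t - p t‖ ≤ ε / 2 := by
      rw [← dist_eq_norm]
      exact (ContinuousMap.dist_apply_le_dist t).trans hd.le
    have h5 := (Complex.abs_re_le_norm (vc t - p t)).trans h4
    exact h5
  have h6 : ∀ t, (pc (q - Polynomial.C (Complex.I * ((q.eval 0).im : ℂ)) +
      Polynomial.C ((ε / 2 : ℝ) : ℂ)) t).re = (p t).re + ε / 2 := by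
    intro t
    have h7 := hq t
    rw [one_mul, pc_apply] at h7
    rw [pc_apply]
    simp only [Polynomial.eval_add, Polynomial.eval_sub, Polynomial.eval_C, Complex.add_re,
      Complex.sub_re, Complex.ofReal_re, h7]
    simp
  refine ⟨q - Polynomial.C (Complex.I * ((q.eval 0).im : ℂ)) + Polynomial.C ((ε / 2 : ℝ) : ℂ),
    ?_, ?_, ?_⟩
  · simp only [Polynomial.eval_add, Polynomial.eval_sub, Polynomial.eval_C, Complex.add_im,
      Complex.sub_im, Complex.ofReal_im]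
    simp
  · intro t
    rw [h6]
    have := h3 t
    rw [abs_le] at this
    linarith [hv t]
  · intro t
    rw [h6]
    have := h3 t
    rw [abs_le] at this ⊢
    constructor <;> linarith

theorem l2_approx {u : TT → ℝ} (hu : MemLp u 2 mm) (hu0 : ∀ᵐ t ∂mm, 0 ≤ u t) {ε : ℝ} (hε : 0 < ε) :
    ∃ q : Polynomial ℂ, (q.eval 0).im = 0 ∧ (∀ t, 0 ≤ (pc q t).re) ∧
      ‖ContinuousMap.toLp (E := ℝ) 2 mm ℝ (pr q) - hu.toLp u‖ ≤ ε := by
  have hdense := ContinuousMap.toLp_denseRange (p := 2) ℝ mm ℝ (by norm_num)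
  obtain ⟨v, hv⟩ := (Metric.denseRange_iff.1 hdense) (hu.toLp u) (ε / 2) (by positivity)
  rw [dist_comm, dist_eq_norm] at hv
  set w : C(TT, ℝ) := ⟨fun t => max (v t) 0, v.continuous.max continuous_const⟩ with hw
  have h1 : ‖ContinuousMap.toLp (E := ℝ) 2 mm ℝ w - hu.toLp u‖ ≤ ε / 2 := by
    refine le_trans ?_ hv.le
    apply Lp.norm_le_norm_of_ae_le
    filter_upwards [Lp.coeFn_sub (ContinuousMap.toLp (E := ℝ) 2 mm ℝ w) (hu.toLp u),
      Lp.coeFn_sub (ContinuousMap.toLp (E := ℝ) 2 mm ℝ v) (hu.toLp u), hu.coeFn_toLp, hu0,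
      ContinuousMap.coeFn_toLp (E := ℝ) (p := 2) (μ := mm) (𝕜 := ℝ) w,
      ContinuousMap.coeFn_toLp (E := ℝ) (p := 2) (μ := mm) (𝕜 := ℝ) v] with t a1 a2 a3 a4 a5 a6
    rw [a1, a2, Pi.sub_apply, Pi.sub_apply, a3, a5, a6]
    change |max (v t) 0 - u t| ≤ |v t - u t|
    rcases le_total 0 (v t) with h | h
    · rw [max_eq_left h]
    · rw [max_eq_right h, abs_of_nonpos (by linarith), abs_of_nonpos (by linarith)]
      linarith
  obtain ⟨q, hq0, hq1, hq2⟩ := uniform_approx w (fun t => le_max_right _ _) (half_pos hε)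
  refine ⟨q, hq0, hq1, ?_⟩
  have h2 : ‖ContinuousMap.toLp (E := ℝ) 2 mm ℝ (pr q) - ContinuousMap.toLp (E := ℝ) 2 mm ℝ w‖ ≤
      ε / 2 := by
    rw [← map_sub]
    have h3 : ‖pr q - w‖ ≤ ε / 2 := by
      rw [ContinuousMap.norm_le _ (by positivity)]
      intro t
      exact hq2 t
    have h4 := Lp.norm_le_of_ae_bound (f := ContinuousMap.toLp (E := ℝ) 2 mm ℝ (pr q - w))
      (C := ε / 2) (by positivity) (by
        filter_upwards [ContinuousMap.coeFn_toLp (E := ℝ) (p := 2) (μ := mm) (𝕜 := ℝ) (pr q - w)]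
          with t ht
        rw [ht]
        exact ((pr q - w).norm_coe_le_norm t).trans h3)
    have hm : measureUnivNNReal mm = 1 := by simp [measureUnivNNReal]
    rw [hm] at h4
    simpa using h4
  have h5 : ContinuousMap.toLp (E := ℝ) 2 mm ℝ (pr q) - hu.toLp u =
      (ContinuousMap.toLp (E := ℝ) 2 mm ℝ (pr q) - ContinuousMap.toLp (E := ℝ) 2 mm ℝ w) +
      (ContinuousMap.toLp (E := ℝ) 2 mm ℝ w - hu.toLp u) := by abel
  rw [h5]
  refine (norm_add_le _ _).trans ?_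
  linarith

/-- Real part map on `L²`. -/
noncomputable def reL : Lp ℂ 2 mm →L[ℝ] Lp ℝ 2 mm := Complex.reCLM.compLpL 2 mm

theorem reL_coe (f : Lp ℂ 2 mm) : reL f =ᵐ[mm] fun t => (f t).re :=
  Complex.reCLM.coeFn_compLpL f

/-- Continuous functions as elements of `L²`. -/
noncomputable def cL (g : C(TT, ℂ)) : Lp ℂ 2 mm := ContinuousMap.toLp (E := ℂ) 2 mm ℂ g

theorem cL_coe (g : C(TT, ℂ)) : cL g =ᵐ[mm] g := ContinuousMap.coeFn_toLp mm g

theorem reL_cL (q : Polynomial ℂ) :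
    reL (cL (pc q)) = ContinuousMap.toLp (E := ℝ) 2 mm ℝ (pr q) := by
  apply Lp.ext
  filter_upwards [reL_coe (cL (pc q)), cL_coe (pc q),
    ContinuousMap.coeFn_toLp (E := ℝ) (p := 2) (μ := mm) (𝕜 := ℝ) (pr q)] with t h1 h2 h3
  rw [h1, h2, h3]
  rfl

theorem norm_sq_int (f : Lp ℂ 2 mm) : ‖f‖ ^ 2 = ∫ t, ‖f t‖ ^ 2 ∂mm := by
  have h := @L2.inner_def TT ℂ ℂ _ _ _ _ _ f f
  have h1 := congrArg RCLike.re h
  rw [← norm_sq_eq_re_inner] at h1
  rw [h1, ← integral_re]
  · apply integral_congr_ae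
    refine Eventually.of_forall fun t => ?_
    change RCLike.re ⟪f t, f t⟫_ℂ = ‖f t‖ ^ 2
    rw [norm_sq_eq_re_inner (𝕜 := ℂ)]
  · exact L2.integrable_inner f f

theorem norm_sq_int_real (f : Lp ℝ 2 mm) : ‖f‖ ^ 2 = ∫ t, (f t) ^ 2 ∂mm := by
  have h := @L2.inner_def TT ℝ ℝ _ _ _ _ _ f f
  rw [real_inner_self_eq_norm_sq] at h
  rw [h]
  apply integral_congr_ae
  refine Eventually.of_forall fun t => ?_
  change ⟪f t, f t⟫_ℝ = (f t) ^ 2
  rw [real_inner_self_eq_norm_sq, Real.norm_eq_abs, sq_abs]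

theorem norm_bound (q : Polynomial ℂ) (hq : (q.eval 0).im = 0) :
    ‖cL (pc q)‖ ≤ 2 * ‖reL (cL (pc q))‖ := by
  have h1 : ‖cL (pc q)‖ ^ 2 = ∫ t, ‖pc q t‖ ^ 2 ∂mm := by
    rw [norm_sq_int]
    apply integral_congr_ae
    filter_upwards [cL_coe (pc q)] with t ht
    rw [ht]
  have h2 : ‖reL (cL (pc q))‖ ^ 2 = ∫ t, (pc q t).re ^ 2 ∂mm := by
    rw [norm_sq_int_real]
    apply integral_congr_ae
    filter_upwards [reL_coe (cL (pc q)), cL_coe (pc q)] with t ht ht2
    rw [ht, ht2]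
  have hcint : ∀ g : TT → ℂ, Continuous g → Integrable g mm := fun g hg =>
    hg.integrable_of_hasCompactSupport (HasCompactSupport.of_compactSpace _)
  have hrint : ∀ g : TT → ℝ, Continuous g → Integrable g mm := fun g hg =>
    hg.integrable_of_hasCompactSupport (HasCompactSupport.of_compactSpace _)
  have hcr : Continuous fun t => (pc q t).re := Complex.continuous_re.comp (pc q).continuous
  have hci : Continuous fun t => (pc q t).im := Complex.continuous_im.comp (pc q).continuous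
  have h3 : ∫ t, (pc q t) ^ 2 ∂mm = (q.eval 0) ^ 2 := by
    have h4 : DiffContOnCl ℂ (fun z => (q.eval z) ^ 2) (ball 0 1) :=
      (q.differentiable.pow 2).diffContOnCl
    exact mean_holo h4
  have h5 : ∫ t, ((pc q t).re ^ 2 - (pc q t).im ^ 2) ∂mm = ((q.eval 0) ^ 2).re := by
    rw [← h3]
    have h6 := integral_re (hcint _ ((pc q).continuous.pow 2))
    change ∫ t, ((pc q t) ^ 2).re ∂mm = (∫ t, (pc q t) ^ 2 ∂mm).re at h6
    rw [← h6]
    apply integral_congr_ae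
    refine Eventually.of_forall fun t => ?_
    change (pc q t).re ^ 2 - (pc q t).im ^ 2 = ((pc q t) ^ 2).re
    rw [sq (pc q t), Complex.mul_re]
    ring
  have h7 : 0 ≤ ((q.eval 0) ^ 2).re := by
    rw [sq, Complex.mul_re, hq]
    nlinarith [sq_nonneg (q.eval 0).re]
  have i1 : Integrable (fun t => (pc q t).re ^ 2) mm := hrint _ (hcr.pow 2)
  have i2 : Integrable (fun t => (pc q t).im ^ 2) mm := hrint _ (hci.pow 2)
  rw [← h5, integral_sub i1 i2] at h7
  have h8 : ‖cL (pc q)‖ ^ 2 = ‖reL (cL (pc q))‖ ^ 2 + ∫ t, (pc q t).im ^ 2 ∂mm := by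
    rw [h1, h2, ← integral_add i1 i2]
    apply integral_congr_ae
    refine Eventually.of_forall fun t => ?_
    change ‖pc q t‖ ^ 2 = (pc q t).re ^ 2 + (pc q t).im ^ 2
    rw [← Complex.normSq_eq_norm_sq, Complex.normSq_apply]
    ring
  rw [← h2] at h7
  have h9 : ‖cL (pc q)‖ ^ 2 ≤ (2 * ‖reL (cL (pc q))‖) ^ 2 := by
    rw [h8]
    nlinarith [sq_nonneg ‖reL (cL (pc q))‖]
  exact le_of_sq_le_sq h9 (by positivity)

theorem exists_pos {u : TT → ℝ} (hu : MemLp u 2 mm) (hu0 : ∀ᵐ t ∂mm, 0 ≤ u t) :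
    ∃ F : TT → ℂ, IsPos F ∧ (∀ᵐ t ∂mm, (F t).re = u t) := by
  have hex : ∀ n : ℕ, ∃ q : Polynomial ℂ, (q.eval 0).im = 0 ∧ (∀ t, 0 ≤ (pc q t).re) ∧
      ‖ContinuousMap.toLp (E := ℝ) 2 mm ℝ (pr q) - hu.toLp u‖ ≤ 1 / ((n : ℝ) + 1) :=
    fun n => l2_approx hu hu0 (by positivity)
  choose q hq0 hq1 hq2 using hex
  have hR : Tendsto (fun n => reL (cL (pc (q n)))) atTop (𝓝 (hu.toLp u)) := by
    rw [tendsto_iff_norm_sub_tendsto_zero]
    refine squeeze_zero (fun n => norm_nonneg _) (fun n => ?_)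
      tendsto_one_div_add_atTop_nhds_zero_nat
    rw [reL_cL]
    exact hq2 n
  have hdiff : ∀ n m, ‖cL (pc (q n)) - cL (pc (q m))‖ ≤
      2 * ‖reL (cL (pc (q n))) - reL (cL (pc (q m)))‖ := by
    intro n m
    have h1 : cL (pc (q n)) - cL (pc (q m)) = cL (pc (q n - q m)) := by
      unfold cL
      rw [← map_sub]
      congr 1
      ext t
      simp [pc_apply]
    have h2 := norm_bound (q n - q m) (by rw [Polynomial.eval_sub, Complex.sub_im, hq0, hq0, sub_zero])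
    rw [← map_sub, h1]
    exact h2
  have hcau : CauchySeq (fun n => cL (pc (q n))) := by
    have h1 := hR.cauchySeq
    rw [Metric.cauchySeq_iff] at h1 ⊢
    intro ε hε
    obtain ⟨N, hN⟩ := h1 (ε / 2) (by positivity)
    refine ⟨N, fun n hn m hm => ?_⟩
    have h2 := hN n hn m hm
    rw [dist_eq_norm] at h2 ⊢
    linarith [hdiff n m]
  obtain ⟨F, hF⟩ := cauchySeq_tendsto_of_complete hcau
  have hre : reL F = hu.toLp u :=
    tendsto_nhds_unique ((reL.continuous.tendsto F).comp hF) hR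
  have hae : ∀ᵐ t ∂mm, (F t).re = u t := by
    have h1 := reL_coe F
    rw [hre] at h1
    filter_upwards [h1, hu.coeFn_toLp] with t h2 h3
    rw [← h2, h3]
  refine ⟨F, ⟨Lp.memLp F, ?_, q, hq1, ?_⟩, hae⟩
  · filter_upwards [hae, hu0] with t h1 h2
    rw [h1]
    exact h2
  · rw [tendsto_iff_norm_sub_tendsto_zero] at hF
    refine squeeze_zero (fun n => integral_nonneg fun t => norm_nonneg _) (fun n => ?_) hF
    have h1 : ∫ t, ‖pc (q n) t - F t‖ ∂mm = ∫ t, ‖(cL (pc (q n)) - F) t‖ ∂mm := by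
      apply integral_congr_ae
      filter_upwards [Lp.coeFn_sub (cL (pc (q n))) F, cL_coe (pc (q n))] with t h2 h3
      rw [h2, Pi.sub_apply, h3]
    rw [h1]
    set G := cL (pc (q n)) - F with hG
    have h2 : ∫ t, ‖G t‖ ∂mm = (eLpNorm G 1 mm).toReal := by
      rw [eLpNorm_one_eq_lintegral_enorm, integral_norm_eq_lintegral_enorm
        (Lp.aestronglyMeasurable G)]
    rw [h2, Lp.norm_def]
    apply ENNReal.toReal_mono (Lp.eLpNorm_ne_top G)
    exact eLpNorm_le_eLpNorm_of_exponent_le one_le_two (Lp.aestronglyMeasurable G)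

end Pool.Agent.LibHinf
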