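import Mathlib
import Pool.Agent.LibHinf.Exist

set_option autoImplicit false
open MeasureTheory AddCircle Filter Topology Metric
open scoped ENNReal ComplexConjugate InnerProductSpace

namespace Pool.Agent.LibHinf

theorem exp_lip (N : ℝ) (hN : 0 ≤ N) (z w : ℂ) (hz : 0 ≤ z.re) (hw : 0 ≤ w.re) :
    ‖Complex.exp (-(N * z)) - Complex.exp (-(N * w))‖ ≤ N * ‖z - w‖ := by
  have hconv : Convex ℝ {z : ℂ | 0 ≤ z.re} := convex_halfSpace_re_ge 0
  have hd : ∀ x ∈ {z : ℂ | 0 ≤ z.re}, DifferentiableAt ℂ (fun z : ℂ => Complex.exp (-(N * z))) x := by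
    intro x _
    fun_prop
  refine hconv.norm_image_sub_le_of_norm_deriv_le (f := fun z : ℂ => Complex.exp (-(N * z)))
    hd ?_ hw hz
  intro x hx
  have h1 : HasDerivAt (fun z : ℂ => Complex.exp (-(N * z))) (Complex.exp (-(N * x)) * (-(N * 1))) x :=
    ((((hasDerivAt_id x).const_mul (N : ℂ))).neg).cexp
  rw [h1.deriv, norm_mul, norm_neg, mul_one, Complex.norm_real, Real.norm_eq_abs, abs_of_nonneg hN,
    Complex.norm_exp]
  have h2 : Real.exp (-(N * x)).re ≤ 1 := by
    rw [Real.exp_le_one_iff, Complex.neg_re, Complex.re_ofReal_mul]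
    have : 0 ≤ N * x.re := mul_nonneg hN hx
    linarith
  nlinarith

theorem mean_zero {g : TT → ℂ} (hg : MemLp g ∞ mm) (ha : Ana g) {E : Set TT}
    (hE : MeasurableSet E) (hpos : 0 < mm E) (h0 : ∀ᵐ t ∂mm, t ∈ E → g t = 0) :
    fourierCoeff g 0 = 0 := by
  have hu : MemLp (Eᶜ.indicator (fun _ => (1 : ℝ))) 2 mm := (memLp_const 1).indicator hE.compl
  obtain ⟨F, hF, hFre⟩ := exists_pos hu
    (Eventually.of_forall fun t => Set.indicator_nonneg (fun _ _ => zero_le_one) t)
  obtain ⟨C, hC0, hC⟩ : ∃ C : ℝ, 0 ≤ C ∧ ∀ᵐ t ∂mm, ‖g t‖ ≤ C := by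
    refine ⟨(eLpNorm g ∞ mm).toReal, ENNReal.toReal_nonneg, ?_⟩
    filter_upwards [ae_le_eLpNormEssSup (f := g) (μ := mm)] with t ht
    rw [← eLpNorm_exponent_top] at ht
    have := (ENNReal.toReal_le_toReal (by simp) hg.eLpNorm_ne_top).2 ht
    simpa using this
  have hmeas : AEStronglyMeasurable F mm := hF.1.aestronglyMeasurable
  have key : ∀ N : ℕ, ‖fourierCoeff g 0‖ * Real.exp ((N : ℝ) * (mm E).toReal) ≤ C := by
    intro N
    have hN : (0 : ℝ) ≤ (N : ℝ) := Nat.cast_nonneg N
    set P : TT → ℂ := fun t => Complex.exp (-(((N : ℝ) : ℂ) * F t)) with hP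
    have hPm : AEStronglyMeasurable P mm :=
      Complex.continuous_exp.comp_aestronglyMeasurable ((hmeas.const_mul _).neg)
    have hPn : ∀ᵐ t ∂mm, ‖P t‖ = Real.exp (-(N * Eᶜ.indicator (fun _ => (1 : ℝ)) t)) := by
      filter_upwards [hFre] with t ht
      rw [hP]
      simp only [Complex.norm_exp, Complex.neg_re, Complex.re_ofReal_mul, ht]
    have hP1 : ∀ᵐ t ∂mm, ‖P t‖ ≤ 1 := by
      filter_upwards [hPn] with t ht
      rw [ht, Real.exp_le_one_iff]
      have : 0 ≤ Eᶜ.indicator (fun _ => (1 : ℝ)) t := Set.indicator_nonneg (fun _ _ => zero_le_one) t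
      have := mul_nonneg hN this
      linarith
    have hPtop : MemLp P ∞ mm := memLp_top_of_bound hPm 1 hP1
    have hPint : Integrable P mm := hPtop.integrable le_top
    obtain ⟨hA, hM, _⟩ := psi_main hF hN (Ψ := fun z => Complex.exp (-(((N : ℝ) : ℂ) * z)))
      (fun z _ => by fun_prop) (fun z w hz hw => exp_lip N hN z w hz hw) hPint
    have hmul := Ana.mul_mean hPtop (hg.mono_exponent le_top) hA ha
    have hre : (fourierCoeff F 0).re = (mm Eᶜ).toReal := by
      have h1 : fourierCoeff F 0 = ∫ t, F t ∂mm := by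
        rw [fourierCoeff]; simp
      have h2 := integral_re (hF.1.integrable one_le_two)
      change ∫ t, (F t).re ∂mm = (∫ t, F t ∂mm).re at h2
      rw [h1, ← h2, integral_congr_ae hFre, integral_indicator hE.compl]
      simp [Measure.real]
    have h1 : ‖fourierCoeff (fun t => P t * g t) 0‖ ≤ Real.exp (-N) * C := by
      rw [fourierCoeff]
      refine (norm_integral_le_integral_norm _).trans ?_
      have h2 : ∀ᵐ t ∂mm, ‖fourier (-0) t • (P t * g t)‖ ≤ Real.exp (-N) * C := by
        filter_upwards [hPn, hC, h0] with t h3 h4 h5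
        rw [neg_zero, fourier_zero, one_smul, norm_mul, h3]
        by_cases ht : t ∈ E
        · rw [h5 ht, norm_zero, mul_zero]
          positivity
        · rw [Set.indicator_of_mem (show t ∈ Eᶜ from ht), mul_one]
          exact mul_le_mul_of_nonneg_left h4 (Real.exp_pos _).le
      have h3 : ∫ t, ‖fourier (-0) t • (P t * g t)‖ ∂mm ≤ ∫ _, Real.exp (-N) * C ∂mm := by
        apply integral_mono_of_nonneg (Eventually.of_forall fun t => norm_nonneg _)
          (integrable_const _) h2
      refine h3.trans (le_of_eq ?_)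
      simp
    rw [hmul, norm_mul] at h1
    have hM' : ‖fourierCoeff P 0‖ = Real.exp (-(N * (mm Eᶜ).toReal)) := by
      change fourierCoeff P 0 = _ at hM
      rw [hM, Complex.norm_exp, Complex.neg_re, Complex.re_ofReal_mul, hre]
    rw [hM'] at h1
    have hsum : (mm E).toReal = 1 - (mm Eᶜ).toReal := by
      have := prob_add_prob_compl (μ := mm) hE
      have h2 := congrArg ENNReal.toReal this
      rw [ENNReal.toReal_add (measure_ne_top _ _) (measure_ne_top _ _), ENNReal.toReal_one] at h2
      linarith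
    have h2 : Real.exp ((N : ℝ) * (mm E).toReal) = Real.exp N * Real.exp (-(N * (mm Eᶜ).toReal)) := by
      rw [← Real.exp_add, hsum]
      congr 1
      ring
    rw [h2]
    calc ‖fourierCoeff g 0‖ * (Real.exp N * Real.exp (-(N * (mm Eᶜ).toReal)))
        = Real.exp N * (Real.exp (-(N * (mm Eᶜ).toReal)) * ‖fourierCoeff g 0‖) := by
          rw [mul_comm, mul_assoc]
      _ ≤ Real.exp N * (Real.exp (-N) * C) := mul_le_mul_of_nonneg_left h1 (Real.exp_pos _).le
      _ = C := by rw [← mul_assoc, ← Real.exp_add]; simp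
  by_contra hne
  have hp : 0 < ‖fourierCoeff g 0‖ := norm_pos_iff.2 hne
  have hE' : 0 < (mm E).toReal := ENNReal.toReal_pos hpos.ne' (measure_ne_top _ _)
  obtain ⟨N, hN⟩ := exists_nat_gt (C / ‖fourierCoeff g 0‖ / (mm E).toReal)
  have h1 := key N
  have h2 : (N : ℝ) * (mm E).toReal < Real.exp ((N : ℝ) * (mm E).toReal) := by
    have := Real.add_one_le_exp ((N : ℝ) * (mm E).toReal)
    linarith
  rw [div_lt_iff₀ hE', div_lt_iff₀ hp] at hN
  nlinarith

theorem ana_unique {g : TT → ℂ} (hg : MemLp g ∞ mm) (ha : Ana g) {E : Set TT}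
    (hE : MeasurableSet E) (hpos : 0 < mm E) (h0 : ∀ᵐ t ∂mm, t ∈ E → g t = 0) :
    g =ᵐ[mm] 0 := by
  have hshift : ∀ k j : ℤ, fourierCoeff (fun t => fourier (-k) t * g t) j = fourierCoeff g (j + k) := by
    intro k j
    rw [fourierCoeff, fourierCoeff]
    apply integral_congr_ae
    refine Eventually.of_forall fun t => ?_
    change fourier (-j) t • (fourier (-k) t * g t) = fourier (-(j + k)) t • g t
    have h1 : -(j + k) = -j + -k := by ring
    rw [smul_eq_mul, smul_eq_mul, ← mul_assoc, ← fourier_add, h1]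
  have hall : ∀ n : ℕ, ∀ j : ℤ, j ≤ n → fourierCoeff g j = 0 := by
    intro n
    induction n with
    | zero =>
      intro j hj
      rcases lt_or_eq_of_le hj with h | h
      · exact ha j h
      · rw [h]
        exact mean_zero hg ha hE hpos h0
    | succ n ih =>
      intro j hj
      rcases lt_or_eq_of_le hj with h | h
      · exact ih j (by push_cast at h; omega)
      · have h1 : MemLp (fun t => fourier (-j) t * g t) ∞ mm := by
          have h2 : MemLp (fun t : TT => (fourier (-j) t : ℂ)) ∞ mm :=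
            (BoundedContinuousFunction.mkOfCompact (fourier (-j))).memLp_top
          exact hg.mul (r := ∞) h2
        have h3 : Ana (fun t => fourier (-j) t * g t) := by
          intro i hi
          rw [hshift]
          exact ih _ (by rw [h]; push_cast; omega)
        have h4 := mean_zero h1 h3 hE hpos (by
          filter_upwards [h0] with t ht hmem
          rw [ht hmem, mul_zero])
        rw [hshift, zero_add] at h4
        exact h4
  apply eq_zero_of_coeff (hg.mono_exponent le_top)
  intro k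
  exact hall k.toNat k (Int.self_le_toNat k)

end Pool.Agent.LibHinf
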