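import Mathlib
import Pool.Agent.LibHinf.Uniq

set_option autoImplicit false
open MeasureTheory AddCircle Filter Topology Metric
open scoped ENNReal ComplexConjugate InnerProductSpace

namespace Pool.Agent.LibHinf

theorem linf_le_iff (f : Lp ℂ ∞ mm) {C : ℝ} (hC : 0 ≤ C) :
    ‖f‖ ≤ C ↔ ∀ᵐ t ∂mm, ‖f t‖ ≤ C := by
  constructor
  · intro h
    have h1 : ∀ᵐ t ∂mm, ‖f t‖ₑ ≤ eLpNormEssSup f mm := ae_le_eLpNormEssSup
    filter_upwards [h1] with t ht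
    rw [← eLpNorm_exponent_top] at ht
    have h2 := (ENNReal.toReal_le_toReal (by simp) (Lp.eLpNorm_ne_top f)).2 ht
    rw [← Lp.norm_def] at h2
    have h3 : ‖f t‖ = (‖f t‖ₑ).toReal := by simp
    rw [h3]
    exact h2.trans h
  · intro h
    rw [Lp.norm_def, eLpNorm_exponent_top]
    apply ENNReal.toReal_le_of_le_ofReal hC
    exact eLpNormEssSup_le_of_ae_bound h

theorem linf_ae (f : Lp ℂ ∞ mm) : ∀ᵐ t ∂mm, ‖f t‖ ≤ ‖f‖ := (linf_le_iff f (norm_nonneg _)).1 le_rfl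

/-- Bounded analytic functions on the circle, as functions. -/
def HB (g : TT → ℂ) : Prop := MemLp g ∞ mm ∧ Ana g

theorem HB.coeff_add {f g : TT → ℂ} (hf : MemLp f ∞ mm) (hg : MemLp g ∞ mm) (k : ℤ) :
    fourierCoeff (fun t => f t + g t) k = fourierCoeff f k + fourierCoeff g k := by
  have := fourierCoeff.add (hf.integrable le_top) (hg.integrable le_top)
  exact congrFun this k

theorem HB.add {f g : TT → ℂ} (hf : HB f) (hg : HB g) : HB (fun t => f t + g t) := by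
  refine ⟨hf.1.add hg.1, fun k hk => ?_⟩
  rw [HB.coeff_add hf.1 hg.1, hf.2 k hk, hg.2 k hk, add_zero]

theorem HB.const_mul {f : TT → ℂ} (hf : HB f) (c : ℂ) : HB (fun t => c * f t) := by
  refine ⟨hf.1.const_mul c, fun k hk => ?_⟩
  rw [fourierCoeff.const_mul, hf.2 k hk, mul_zero]

theorem HB.const (c : ℂ) : HB (fun _ => c) := by
  refine ⟨memLp_const c, ?_⟩
  have : Ana (fun t : TT => (fun _ : ℂ => c) (ee t)) :=
    coeff_holo (differentiable_const c).diffContOnCl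
  exact this

theorem HB.sub {f g : TT → ℂ} (hf : HB f) (hg : HB g) : HB (fun t => f t - g t) := by
  have := hf.add (hg.const_mul (-1))
  refine ⟨hf.1.sub hg.1, ?_⟩
  refine this.2.congr (Eventually.of_forall fun t => ?_)
  change f t + -1 * g t = f t - g t
  ring

theorem HB.mul {f g : TT → ℂ} (hf : HB f) (hg : HB g) : HB (fun t => f t * g t) :=
  ⟨hg.1.mul (r := ∞) hf.1, hf.2.mul hf.1 (hg.1.mono_exponent le_top) hg.2⟩

theorem HB.congr {f g : TT → ℂ} (hf : HB f) (h : f =ᵐ[mm] g) : HB g :=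
  ⟨hf.1.ae_eq h, hf.2.congr h⟩

theorem HB.poly (q : Polynomial ℂ) : HB (fun t => q.eval (ee t)) := by
  refine ⟨?_, coeff_holo q.differentiable.diffContOnCl⟩
  exact (BoundedContinuousFunction.mkOfCompact (pc q)).memLp_top

/-- The space `H^∞` of the circle. -/
noncomputable def Hinf : Submodule ℂ (Lp ℂ ∞ mm) where
  carrier := {f | ∀ k : ℤ, k < 0 → fourierCoeff (f : TT → ℂ) k = 0}
  zero_mem' := by
    have h : HB (fun _ : TT => (0 : ℂ)) := HB.const 0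
    exact h.2.congr (Lp.coeFn_zero ℂ ∞ mm).symm
  add_mem' := by
    intro f g hf hg
    have h : HB (fun t => f t + g t) := HB.add ⟨Lp.memLp f, hf⟩ ⟨Lp.memLp g, hg⟩
    exact h.2.congr (Lp.coeFn_add f g).symm
  smul_mem' := by
    intro c f hf
    have h : HB (fun t => c * f t) := HB.const_mul ⟨Lp.memLp f, hf⟩ c
    exact h.2.congr (Lp.coeFn_smul c f).symm

theorem hbf (f : Hinf) : HB (f : Lp ℂ ∞ mm) := ⟨Lp.memLp _, f.2⟩

/-- Elements of `H^∞` from functions. -/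
noncomputable def mk (g : TT → ℂ) (hg : HB g) : Hinf :=
  ⟨hg.1.toLp g, hg.2.congr hg.1.coeFn_toLp.symm⟩

theorem mk_coe (g : TT → ℂ) (hg : HB g) : ((mk g hg : Hinf) : Lp ℂ ∞ mm) =ᵐ[mm] g :=
  hg.1.coeFn_toLp

theorem Hinf.ext {f g : Hinf} (h : (f : Lp ℂ ∞ mm) =ᵐ[mm] (g : Lp ℂ ∞ mm)) : f = g :=
  Subtype.ext (Lp.ext h)

theorem Hinf.norm_le_iff (f : Hinf) {C : ℝ} (hC : 0 ≤ C) :
    ‖f‖ ≤ C ↔ ∀ᵐ t ∂mm, ‖(f : Lp ℂ ∞ mm) t‖ ≤ C := linf_le_iff _ hC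

theorem nae (f : Hinf) : ∀ᵐ t ∂mm, ‖(f : Lp ℂ ∞ mm) t‖ ≤ ‖f‖ := linf_ae _

theorem Hinf.add_coe (f g : Hinf) : ((f + g : Hinf) : Lp ℂ ∞ mm) =ᵐ[mm]
    fun t => (f : Lp ℂ ∞ mm) t + (g : Lp ℂ ∞ mm) t := Lp.coeFn_add _ _

theorem Hinf.sub_coe (f g : Hinf) : ((f - g : Hinf) : Lp ℂ ∞ mm) =ᵐ[mm]
    fun t => (f : Lp ℂ ∞ mm) t - (g : Lp ℂ ∞ mm) t := Lp.coeFn_sub _ _

theorem Hinf.smul_coe (c : ℂ) (f : Hinf) : ((c • f : Hinf) : Lp ℂ ∞ mm) =ᵐ[mm]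
    fun t => c * (f : Lp ℂ ∞ mm) t := Lp.coeFn_smul _ _

theorem Hinf.zero_coe : ((0 : Hinf) : Lp ℂ ∞ mm) =ᵐ[mm] fun _ => 0 := Lp.coeFn_zero _ _ _

/-- Multiplication by a bounded analytic function. -/
noncomputable def mulL (b : TT → ℂ) (hb : HB b) : Hinf →ₗ[ℂ] Hinf where
  toFun := fun g => mk (fun t => b t * (g : Lp ℂ ∞ mm) t) (hb.mul (hbf g))
  map_add' := by
    intro g h
    apply Hinf.ext
    filter_upwards [mk_coe _ (hb.mul (hbf (g + h))), mk_coe _ (hb.mul (hbf g)), mk_coe _ (hb.mul (hbf h)),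
      Hinf.add_coe g h, Hinf.add_coe (mk _ (hb.mul (hbf g))) (mk _ (hb.mul (hbf h)))] with t h1 h2 h3 h4 h5
    rw [h1, h5, h2, h3, h4, mul_add]
  map_smul' := by
    intro c g
    apply Hinf.ext
    filter_upwards [mk_coe _ (hb.mul (hbf (c • g))), mk_coe _ (hb.mul (hbf g)),
      Hinf.smul_coe c g, Hinf.smul_coe c (mk _ (hb.mul (hbf g)))] with t h1 h2 h3 h4
    rw [h1, RingHom.id_apply, h4, h2, h3]
    ring

theorem mulL_coe (b : TT → ℂ) (hb : HB b) (g : Hinf) :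
    ((mulL b hb g : Hinf) : Lp ℂ ∞ mm) =ᵐ[mm] fun t => b t * (g : Lp ℂ ∞ mm) t :=
  mk_coe _ (hb.mul (hbf g))

theorem mulL_bound (b : TT → ℂ) (hb : HB b) {C : ℝ} (hC : 0 ≤ C) (hbC : ∀ᵐ t ∂mm, ‖b t‖ ≤ C)
    (g : Hinf) : ‖mulL b hb g‖ ≤ C * ‖g‖ := by
  rw [Hinf.norm_le_iff _ (by positivity)]
  filter_upwards [mulL_coe b hb g, hbC, nae g] with t h1 h2 h3
  rw [h1, norm_mul]
  exact mul_le_mul h2 h3 (norm_nonneg _) hC

end Pool.Agent.LibHinf
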