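import Mathlib
import Pool.Agent.LibHinf.Space

set_option autoImplicit false
open MeasureTheory AddCircle Filter Topology Metric
open scoped ENNReal ComplexConjugate InnerProductSpace

namespace Pool.Agent.LibHinf

theorem norming_kill (ψ : StrongDual ℂ Hinf) (f w : Hinf) {δ r M η : ℝ} (hf : ‖f‖ ≤ 1)
    (hr : 0 < r) (hr1 : r ≤ 1) (hM : 0 < M) (hw : ‖w‖ ≤ M) (hη : 0 ≤ η)
    (hE : ∀ᵐ t ∂mm, 1 - r < ‖(f : Lp ℂ ∞ mm) t‖ → ‖(w : Lp ℂ ∞ mm) t‖ ≤ η)
    (hψ : ‖ψ‖ ≤ (ψ f).re + δ) : ‖ψ w‖ ≤ ‖ψ‖ * η + δ * M / r := by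
  obtain ⟨g, hg, hgn⟩ := exists_extension_norm_eq Hinf ψ
  set E : Set TT := {t | 1 - r < ‖(f : Lp ℂ ∞ mm) t‖} with hEdef
  have hEm : MeasurableSet E :=
    measurableSet_lt measurable_const (Lp.stronglyMeasurable (f : Lp ℂ ∞ mm)).measurable.norm
  have hm1 : MemLp (E.indicator (w : Lp ℂ ∞ mm)) ∞ mm := (Lp.memLp _).indicator hEm
  have hm2 : MemLp (Eᶜ.indicator (w : Lp ℂ ∞ mm)) ∞ mm := (Lp.memLp _).indicator hEm.compl
  have hsum : (w : Lp ℂ ∞ mm) = hm1.toLp _ + hm2.toLp _ := by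
    apply Lp.ext
    filter_upwards [Lp.coeFn_add (hm1.toLp _) (hm2.toLp _), hm1.coeFn_toLp, hm2.coeFn_toLp]
      with t h1 h2 h3
    rw [h1, Pi.add_apply, h2, h3]
    by_cases ht : t ∈ E
    · rw [Set.indicator_of_mem ht, Set.indicator_of_notMem (show t ∉ Eᶜ from fun h => h ht), add_zero]
    · rw [Set.indicator_of_notMem ht, Set.indicator_of_mem (show t ∈ Eᶜ from ht), zero_add]
  have hn1 : ‖hm1.toLp _‖ ≤ η := by
    rw [linf_le_iff _ hη]
    filter_upwards [hm1.coeFn_toLp, hE] with t h1 h2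
    rw [h1]
    by_cases ht : t ∈ E
    · rw [Set.indicator_of_mem ht]
      exact h2 ht
    · rw [Set.indicator_of_notMem ht, norm_zero]
      exact hη
  have hb1 : ‖g (hm1.toLp _)‖ ≤ ‖ψ‖ * η := by
    rw [← hgn]
    exact (g.le_opNorm _).trans (mul_le_mul_of_nonneg_left hn1 (norm_nonneg _))
  have hb2 : ‖g (hm2.toLp _)‖ ≤ δ * M / r := by
    set z := g (hm2.toLp _) with hz
    obtain ⟨θ, hθ, hθz⟩ : ∃ θ : ℂ, ‖θ‖ ≤ 1 ∧ (θ * z).re = ‖z‖ := by
      by_cases h0 : z = 0
      · exact ⟨0, by simp, by simp [h0]⟩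
      · have hz0 : (‖z‖ : ℂ) ≠ 0 := by exact_mod_cast (norm_ne_zero_iff.2 h0)
        refine ⟨conj z / ‖z‖, ?_, ?_⟩
        · rw [norm_div, Complex.norm_conj, Complex.norm_real, norm_norm,
            div_self (norm_ne_zero_iff.2 h0)]
        · have : conj z / ‖z‖ * z = (‖z‖ : ℂ) := by
            rw [div_mul_eq_mul_div, mul_comm (conj z), Complex.mul_conj, Complex.normSq_eq_norm_sq]
            push_cast
            field_simp
          rw [this, Complex.ofReal_re]
    have hn : ‖(f : Lp ℂ ∞ mm) + (((r / M : ℝ) : ℂ) * θ) • hm2.toLp _‖ ≤ 1 := by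
      rw [linf_le_iff _ zero_le_one]
      filter_upwards [Lp.coeFn_add (f : Lp ℂ ∞ mm) ((((r / M : ℝ) : ℂ) * θ) • hm2.toLp _),
        Lp.coeFn_smul (((r / M : ℝ) : ℂ) * θ) (hm2.toLp _), hm2.coeFn_toLp, nae f, nae w]
        with t h1 h2 h3 h4 h5
      rw [h1, Pi.add_apply, h2, Pi.smul_apply, h3]
      by_cases ht : t ∈ E
      · rw [Set.indicator_of_notMem (show t ∉ Eᶜ from fun h => h ht), smul_zero, add_zero]
        exact h4.trans hf
      · rw [Set.indicator_of_mem (show t ∈ Eᶜ from ht)]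
        have h6 : ‖(f : Lp ℂ ∞ mm) t‖ ≤ 1 - r := not_lt.1 ht
        have h7 : ‖(((r / M : ℝ) : ℂ) * θ) • (w : Lp ℂ ∞ mm) t‖ ≤ r := by
          rw [norm_smul, norm_mul, Complex.norm_real, Real.norm_eq_abs,
            abs_of_nonneg (by positivity : 0 ≤ r / M)]
          calc r / M * ‖θ‖ * ‖(w : Lp ℂ ∞ mm) t‖ ≤ r / M * 1 * M := by
                apply mul_le_mul _ (h5.trans hw) (norm_nonneg _) (by positivity)
                exact mul_le_mul_of_nonneg_left hθ (by positivity)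
            _ = r := by field_simp
        exact (norm_add_le _ _).trans (by linarith)
    have h1 : (g ((f : Lp ℂ ∞ mm) + (((r / M : ℝ) : ℂ) * θ) • hm2.toLp _)).re ≤ ‖ψ‖ := by
      refine (Complex.re_le_norm _).trans ?_
      refine (g.le_opNorm _).trans ?_
      rw [hgn]
      exact mul_le_of_le_one_right (norm_nonneg ψ) hn
    rw [map_add, map_smul, hg f, ← hz, Complex.add_re, smul_eq_mul, mul_assoc,
      Complex.re_ofReal_mul, hθz] at h1
    rw [le_div_iff₀ hr]
    have h2 : r / M * ‖z‖ ≤ δ := by linarith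
    rw [div_mul_eq_mul_div, div_le_iff₀ hM] at h2
    linarith
  have h3 : ψ w = g (hm1.toLp _) + g (hm2.toLp _) := by
    rw [← map_add, ← hsum, hg w]
  rw [h3]
  exact (norm_add_le _ _).trans (add_le_add hb1 hb2)

/-- Existence of a square integrable function which is large where `|f|` is close to one. -/
theorem exists_u (f : Hinf) (hf : ‖f‖ ≤ 1)
    (h1 : mm {t | ‖(f : Lp ℂ ∞ mm) t‖ = 1} = 0) :
    ∃ u : TT → ℝ, MemLp u 2 mm ∧ (∀ t, 0 ≤ u t) ∧
      ∀ K : ℕ, ∃ r : ℝ, 0 < r ∧ r ≤ 1 ∧ ∀ᵐ t ∂mm, 1 - r < ‖(f : Lp ℂ ∞ mm) t‖ → (K : ℝ) ≤ u t := by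
  set φ : TT → ℝ := fun t => ‖(f : Lp ℂ ∞ mm) t‖ with hφ
  have hφm : Measurable φ := (Lp.stronglyMeasurable (f : Lp ℂ ∞ mm)).measurable.norm
  set E : ℕ → Set TT := fun n => {t | 1 - 1 / ((n : ℝ) + 1) < φ t} with hE
  have hEm : ∀ n, MeasurableSet (E n) := fun n => measurableSet_lt measurable_const hφm
  have hanti : Antitone E := by
    intro n m hnm t ht
    have h2 : 1 / ((m : ℝ) + 1) ≤ 1 / ((n : ℝ) + 1) := by
      apply one_div_le_one_div_of_le (by positivity)
      have : (n : ℝ) ≤ m := by exact_mod_cast hnm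
      linarith
    change 1 - 1 / ((m : ℝ) + 1) < φ t at ht
    change 1 - 1 / ((n : ℝ) + 1) < φ t
    linarith
  have hinter : mm (⋂ n, E n) = 0 := by
    have h2 : mm ({t | φ t = 1} ∪ {t | ¬ φ t ≤ 1}) = 0 := by
      rw [measure_union_null_iff]
      refine ⟨h1, ?_⟩
      have := nae f
      rw [ae_iff] at this
      refine measure_mono_null (fun t ht => ?_) this
      change ¬ φ t ≤ 1 at ht
      change ¬ φ t ≤ ‖f‖
      exact fun h => ht (h.trans hf)
    refine measure_mono_null (fun t ht => ?_) h2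
    rw [Set.mem_iInter] at ht
    by_cases h3 : φ t ≤ 1
    · left
      change φ t = 1
      apply le_antisymm h3
      have h4 : Tendsto (fun n : ℕ => 1 - 1 / ((n : ℝ) + 1)) atTop (𝓝 (1 - 0)) :=
        tendsto_const_nhds.sub tendsto_one_div_add_atTop_nhds_zero_nat
      rw [sub_zero] at h4
      exact le_of_tendsto' h4 fun n => (ht n).le
    · right
      exact h3
  have htend : Tendsto (fun n => mm (E n)) atTop (𝓝 0) := by
    rw [← hinter]
    exact tendsto_measure_iInter_atTop (fun n => (hEm n).nullMeasurableSet) hanti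
      ⟨0, measure_ne_top _ _⟩
  have hex : ∀ k : ℕ, ∃ n : ℕ, mm (E n) ≤ ENNReal.ofReal ((1 / 2) ^ k / ((k : ℝ) + 1) ^ 2) := by
    intro k
    have hpos : 0 < ENNReal.ofReal ((1 / 2) ^ k / ((k : ℝ) + 1) ^ 2) := by
      rw [ENNReal.ofReal_pos]
      positivity
    exact ((htend.eventually (ge_mem_nhds hpos)).exists)
  choose n hn using hex
  set w : TT → ℝ≥0∞ := fun t => ∑' k : ℕ, (E (n k)).indicator (fun _ => ENNReal.ofReal (((k : ℝ) + 1) ^ 2)) t
    with hw
  have hwm : Measurable w :=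
    Measurable.tsum fun k => measurable_const.indicator (hEm _)
  have hwint : ∫⁻ t, w t ∂mm ≠ ∞ := by
    rw [lintegral_tsum fun k => (measurable_const.indicator (hEm _)).aemeasurable]
    have h2 : ∀ k : ℕ, ∫⁻ t, (E (n k)).indicator (fun _ => ENNReal.ofReal (((k : ℝ) + 1) ^ 2)) t ∂mm ≤
        ENNReal.ofReal ((1 / 2) ^ k) := by
      intro k
      rw [lintegral_indicator (hEm _), lintegral_const, Measure.restrict_apply_univ]
      calc ENNReal.ofReal (((k : ℝ) + 1) ^ 2) * mm (E (n k))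
          ≤ ENNReal.ofReal (((k : ℝ) + 1) ^ 2) *
            ENNReal.ofReal ((1 / 2) ^ k / ((k : ℝ) + 1) ^ 2) := by gcongr; exact hn k
        _ = ENNReal.ofReal ((1 / 2) ^ k) := by
          rw [← ENNReal.ofReal_mul (by positivity)]
          congr 1
          field_simp
    have h3 : ∑' k : ℕ, ENNReal.ofReal ((1 / 2) ^ k) ≠ ∞ := by
      have h4 : Summable fun k : ℕ => (1 / 2 : ℝ) ^ k := summable_geometric_two
      rw [← ENNReal.ofReal_tsum_of_nonneg (fun k => by positivity) h4]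
      exact ENNReal.ofReal_ne_top
    exact ne_top_of_le_ne_top h3 (ENNReal.tsum_le_tsum h2)
  have hwae : ∀ᵐ t ∂mm, w t < ∞ := ae_lt_top hwm hwint
  set u : TT → ℝ := fun t => Real.sqrt (w t).toReal with hu
  have hum : Measurable u := hwm.ennreal_toReal.sqrt
  refine ⟨u, ?_, fun t => Real.sqrt_nonneg _, ?_⟩
  · rw [memLp_two_iff_integrable_sq hum.aestronglyMeasurable]
    have h2 : (fun t => u t ^ 2) = fun t => (w t).toReal := by
      funext t
      exact Real.sq_sqrt ENNReal.toReal_nonneg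
    rw [h2]
    exact integrable_toReal_of_lintegral_ne_top hwm.aemeasurable hwint
  · intro K
    refine ⟨1 / ((n K : ℝ) + 1), by positivity, ?_, ?_⟩
    · rw [div_le_one (by positivity)]
      have : (0 : ℝ) ≤ n K := Nat.cast_nonneg _
      linarith
    · filter_upwards [hwae] with t ht hmem
      have hmem' : t ∈ E (n K) := hmem
      have h2 : ENNReal.ofReal (((K : ℝ) + 1) ^ 2) ≤ w t := by
        have h3 := ENNReal.le_tsum (f := fun k : ℕ =>
          (E (n k)).indicator (fun _ => ENNReal.ofReal (((k : ℝ) + 1) ^ 2)) t) K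
        simp only [Set.indicator_of_mem hmem'] at h3
        exact h3
      have h4 : ((K : ℝ) + 1) ^ 2 ≤ (w t).toReal := by
        have := (ENNReal.toReal_le_toReal ENNReal.ofReal_ne_top ht.ne).2 h2
        rwa [ENNReal.toReal_ofReal (by positivity)] at this
      have h5 : (K : ℝ) + 1 ≤ u t := Real.le_sqrt_of_sq_le h4
      linarith

end Pool.Agent.LibHinf
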