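import Mathlib
import Pool.Agent.LibHinf.Norming

set_option autoImplicit false
open MeasureTheory AddCircle Filter Topology Metric
open scoped ENNReal ComplexConjugate InnerProductSpace

namespace Pool.Agent.LibHinf

theorem exists_phase (z : ℂ) : ∃ θ : ℂ, ‖θ‖ ≤ 1 ∧ (θ * z).re = ‖z‖ := by
  by_cases h0 : z = 0
  · exact ⟨0, by simp, by simp [h0]⟩
  · have hz0 : (‖z‖ : ℂ) ≠ 0 := by exact_mod_cast (norm_ne_zero_iff.2 h0)
    refine ⟨conj z / ‖z‖, ?_, ?_⟩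
    · rw [norm_div, Complex.norm_conj, Complex.norm_real, norm_norm,
        div_self (norm_ne_zero_iff.2 h0)]
    · have : conj z / ‖z‖ * z = (‖z‖ : ℂ) := by
        rw [div_mul_eq_mul_div, mul_comm (conj z), Complex.mul_conj, Complex.normSq_eq_norm_sq]
        push_cast
        field_simp
      rw [this, Complex.ofReal_re]

/-! Pointwise estimates. -/

section pointwise
variable {z : ℂ} {ε : ℝ}

/-- The function `1 / (1 + ε z)`. -/
noncomputable def Bp (ε : ℝ) (z : ℂ) : ℂ := (1 + ε * z)⁻¹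

theorem den_ge_one (hz : 0 ≤ z.re) (hε : 0 ≤ ε) : 1 ≤ ‖1 + (ε : ℂ) * z‖ := by
  have h1 := Complex.re_le_norm (1 + (ε : ℂ) * z)
  rw [Complex.add_re, Complex.one_re, Complex.re_ofReal_mul] at h1
  have := mul_nonneg hε hz
  linarith

theorem den_ne (hz : 0 ≤ z.re) (hε : 0 ≤ ε) : 1 + (ε : ℂ) * z ≠ 0 := by
  intro h
  have := den_ge_one hz hε
  rw [h, norm_zero] at this
  linarith

theorem den_sq (hz : 0 ≤ z.re) (hε : 0 ≤ ε) : 1 + (ε * ‖z‖) ^ 2 ≤ ‖1 + (ε : ℂ) * z‖ ^ 2 := by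
  rw [← Complex.normSq_eq_norm_sq, mul_pow, ← Complex.normSq_eq_norm_sq z, Complex.normSq_apply,
    Complex.normSq_apply]
  simp only [Complex.add_re, Complex.one_re, Complex.add_im, Complex.one_im, Complex.re_ofReal_mul,
    Complex.im_ofReal_mul]
  have := mul_nonneg hε hz
  nlinarith

theorem Bp_norm (hz : 0 ≤ z.re) (hε : 0 ≤ ε) : ‖Bp ε z‖ ≤ 1 := by
  unfold Bp
  rw [norm_inv]
  exact inv_le_one_of_one_le₀ (den_ge_one hz hε)

theorem Ap_eq (hz : 0 ≤ z.re) (hε : 0 ≤ ε) : 1 - Bp ε z = ε * z * Bp ε z := by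
  unfold Bp
  have := den_ne hz hε
  field_simp
  ring

theorem Ap_norm (hz : 0 ≤ z.re) (hε : 0 ≤ ε) :
    ‖1 - Bp ε z‖ = ε * ‖z‖ / ‖1 + (ε : ℂ) * z‖ := by
  rw [Ap_eq hz hε, norm_mul, norm_mul, Complex.norm_real, Real.norm_eq_abs, abs_of_nonneg hε]
  unfold Bp
  rw [norm_inv, div_eq_mul_inv]

theorem AB_sq (hz : 0 ≤ z.re) (hε : 0 ≤ ε) : ‖1 - Bp ε z‖ ^ 2 + ‖Bp ε z‖ ^ 2 ≤ 1 := by
  rw [Ap_norm hz hε]
  unfold Bp
  have h1 := den_ge_one hz hε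
  have h2 := den_sq hz hε
  rw [norm_inv, inv_pow, div_pow]
  have h3 : 0 < ‖1 + (ε : ℂ) * z‖ ^ 2 := by positivity
  rw [← one_div, ← add_div, div_le_one h3]
  linarith

theorem Ap_le_one (hz : 0 ≤ z.re) (hε : 0 ≤ ε) : ‖1 - Bp ε z‖ ≤ 1 := by
  have h1 := AB_sq hz hε
  have h2 := sq_nonneg ‖Bp ε z‖
  have h3 : ‖1 - Bp ε z‖ ^ 2 ≤ 1 ^ 2 := by linarith
  exact le_of_sq_le_sq h3 zero_le_one

theorem Ap_le (hz : 0 ≤ z.re) (hε : 0 ≤ ε) : ‖1 - Bp ε z‖ ≤ ε * ‖z‖ := by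
  rw [Ap_norm hz hε]
  exact div_le_self (by positivity) (den_ge_one hz hε)

theorem norm_le_one_add (hz : 0 ≤ z.re) : ‖z‖ ≤ ‖1 + z‖ := by
  have h := den_sq (ε := 1) hz zero_le_one
  rw [Complex.ofReal_one, one_mul, one_mul] at h
  exact le_of_sq_le_sq (by linarith) (norm_nonneg _)

theorem one_le_norm_one_add (hz : 0 ≤ z.re) : 1 ≤ ‖1 + z‖ := by
  have h := den_ge_one (ε := 1) hz zero_le_one
  rwa [Complex.ofReal_one, one_mul] at h

theorem Bp_mul_le (hz : 0 ≤ z.re) (hε : 0 < ε) (hε1 : ε ≤ 1) : ‖Bp ε z‖ * ‖1 + z‖ ≤ 1 / ε := by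
  have h1 : ε * ‖1 + z‖ ≤ ‖1 + (ε : ℂ) * z‖ := by
    have h2 : (ε * ‖1 + z‖) ^ 2 ≤ ‖1 + (ε : ℂ) * z‖ ^ 2 := by
      rw [mul_pow, ← Complex.normSq_eq_norm_sq, ← Complex.normSq_eq_norm_sq, Complex.normSq_apply,
        Complex.normSq_apply]
      simp only [Complex.add_re, Complex.one_re, Complex.add_im, Complex.one_im,
        Complex.re_ofReal_mul, Complex.im_ofReal_mul]
      have h3 : ε ^ 2 ≤ 1 := by nlinarith
      have h4 : ε ^ 2 * z.re ≤ ε * z.re := by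
        have : ε ^ 2 ≤ ε := by nlinarith
        exact mul_le_mul_of_nonneg_right this hz
      nlinarith
    exact le_of_sq_le_sq h2 (norm_nonneg _)
  unfold Bp
  have h5 := den_ge_one hz hε.le
  rw [norm_inv, inv_mul_le_iff₀ (by linarith), mul_one_div, le_div_iff₀ hε]
  linarith

theorem AB_le (hz : 0 ≤ z.re) (hε : 0 ≤ ε) :
    ‖(1 - Bp ε z) * Bp ε z‖ ≤ 4 * (ε * ‖z‖ / (1 + ε * ‖z‖) - (ε / 2) * ‖z‖ / (1 + (ε / 2) * ‖z‖)) := by
  set x := ε * ‖z‖ with hx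
  have hx0 : 0 ≤ x := by positivity
  have h1 : ‖(1 - Bp ε z) * Bp ε z‖ ≤ x / (1 + x ^ 2) := by
    rw [norm_mul, Ap_norm hz hε]
    unfold Bp
    rw [norm_inv, ← hx]
    have h2 := den_sq hz hε
    rw [← hx] at h2
    have h3 := den_ge_one hz hε
    have h4 : x / ‖1 + (ε : ℂ) * z‖ * ‖1 + (ε : ℂ) * z‖⁻¹ = x / ‖1 + (ε : ℂ) * z‖ ^ 2 := by
      rw [sq, div_eq_mul_inv, div_eq_mul_inv, mul_inv]
      ring
    rw [h4]
    exact div_le_div_of_nonneg_left hx0 (by positivity) h2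
  refine h1.trans ?_
  have h5 : ε / 2 * ‖z‖ = x / 2 := by rw [hx]; ring
  rw [h5]
  have h6 : x / (1 + x) - x / 2 / (1 + x / 2) = x / ((1 + x) * (2 + x)) := by
    field_simp
    ring
  rw [h6, ← mul_div_assoc, div_le_div_iff₀ (by positivity) (by positivity)]
  have h7 : (1 + x) * (2 + x) ≤ 4 * (1 + x ^ 2) := by nlinarith [sq_nonneg (x - 1)]
  calc x * ((1 + x) * (2 + x)) ≤ x * (4 * (1 + x ^ 2)) := mul_le_mul_of_nonneg_left h7 hx0
    _ = 4 * x * (1 + x ^ 2) := by ring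

theorem AB_sum (hz : 0 ≤ z.re) (N : ℕ) :
    ∑ k ∈ Finset.range N, ‖(1 - Bp ((1 / 2 : ℝ) ^ k) z) * Bp ((1 / 2 : ℝ) ^ k) z‖ ≤ 4 := by
  have key : ∀ N : ℕ, ∑ k ∈ Finset.range N, ‖(1 - Bp ((1 / 2 : ℝ) ^ k) z) * Bp ((1 / 2 : ℝ) ^ k) z‖ ≤
      4 * (‖z‖ / (1 + ‖z‖) - (1 / 2 : ℝ) ^ N * ‖z‖ / (1 + (1 / 2 : ℝ) ^ N * ‖z‖)) := by
    intro N
    induction N with
    | zero => simp
    | succ N ih =>
      rw [Finset.sum_range_succ]
      have h1 := AB_le hz (ε := (1 / 2 : ℝ) ^ N) (by positivity)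
      have h2 : (1 / 2 : ℝ) ^ N / 2 = (1 / 2 : ℝ) ^ (N + 1) := by rw [pow_succ]; ring
      rw [h2] at h1
      linarith
  refine (key N).trans ?_
  have h1 : ‖z‖ / (1 + ‖z‖) ≤ 1 := by
    rw [div_le_one (by positivity)]
    linarith
  have h2 : 0 ≤ (1 / 2 : ℝ) ^ N * ‖z‖ / (1 + (1 / 2 : ℝ) ^ N * ‖z‖) := by positivity
  linarith

theorem Bp_lip (hε : 0 ≤ ε) (z w : ℂ) (hz : 0 ≤ z.re) (hw : 0 ≤ w.re) :
    ‖Bp ε z - Bp ε w‖ ≤ ε * ‖z - w‖ := by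
  have h1 : Bp ε z - Bp ε w = -(ε * (z - w)) * (Bp ε z * Bp ε w) := by
    unfold Bp
    have := den_ne hz hε
    have := den_ne hw hε
    field_simp
    ring
  rw [h1, norm_mul, norm_neg, norm_mul, norm_mul, Complex.norm_real, Real.norm_eq_abs,
    abs_of_nonneg hε]
  have h2 := Bp_norm hz hε
  have h3 := Bp_norm hw hε
  have h4 : ‖Bp ε z‖ * ‖Bp ε w‖ ≤ 1 := mul_le_one₀ h2 (norm_nonneg _) h3
  exact mul_le_of_le_one_right (by positivity) h4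

end pointwise

theorem Bf_HB {F : TT → ℂ} (hF : IsPos F) {ε : ℝ} (hε : 0 ≤ ε) : HB (fun t => Bp ε (F t)) := by
  have hm : AEStronglyMeasurable (fun t => Bp ε (F t)) mm := by
    have h1 := hF.1.aestronglyMeasurable
    have h2 : AEMeasurable (fun t => Bp ε (F t)) mm :=
      ((h1.aemeasurable.const_mul (ε : ℂ)).const_add 1).inv
    exact h2.aestronglyMeasurable
  have hb : ∀ᵐ t ∂mm, ‖Bp ε (F t)‖ ≤ 1 := by
    filter_upwards [hF.2.1] with t ht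
    exact Bp_norm ht hε
  have htop : MemLp (fun t => Bp ε (F t)) ∞ mm := memLp_top_of_bound hm 1 hb
  refine ⟨htop, ?_⟩
  refine (psi_main hF hε (Ψ := Bp ε) ?_ (fun z w hz hw => Bp_lip hε z w hz hw)
    (htop.integrable le_top)).1
  intro z hz
  unfold Bp
  exact DifferentiableAt.inv (by fun_prop) (den_ne hz hε)

/-- Unconditional summability along bounded sums. -/
theorem uncond (ψ : StrongDual ℂ Hinf) (f : Hinf) (c : ℕ → TT → ℂ) (hc : ∀ k, HB (c k)) {C : ℝ}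
    (hC : 0 ≤ C) (hsum : ∀ᵐ t ∂mm, ∀ N, ∑ k ∈ Finset.range N, ‖c k t‖ ≤ C) :
    Tendsto (fun k => ‖ψ (mulL (c k) (hc k) f)‖) atTop (𝓝 0) := by
  choose θ hθ hθz using fun k => exists_phase (ψ (mulL (c k) (hc k) f))
  have hn : ∀ N, ∀ᵐ t ∂mm, ‖((∑ k ∈ Finset.range N, θ k • mulL (c k) (hc k) f : Hinf) :
      Lp ℂ ∞ mm) t‖ ≤ (∑ k ∈ Finset.range N, ‖c k t‖) * ‖f‖ := by
    intro N
    induction N with
    | zero =>
      filter_upwards [Hinf.zero_coe] with t ht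
      rw [Finset.sum_range_zero, ht, norm_zero, Finset.sum_range_zero, zero_mul]
    | succ N ih =>
      filter_upwards [ih, Hinf.add_coe (∑ k ∈ Finset.range N, θ k • mulL (c k) (hc k) f)
        (θ N • mulL (c N) (hc N) f), Hinf.smul_coe (θ N) (mulL (c N) (hc N) f),
        mulL_coe (c N) (hc N) f, nae f] with t h1 h2 h3 h4 h5
      rw [Finset.sum_range_succ, h2, Finset.sum_range_succ, add_mul]
      refine (norm_add_le _ _).trans (add_le_add h1 ?_)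
      rw [h3, h4, norm_mul, norm_mul]
      calc ‖θ N‖ * (‖c N t‖ * ‖(f : Lp ℂ ∞ mm) t‖) ≤ 1 * (‖c N t‖ * ‖f‖) := by
            apply mul_le_mul (hθ N) _ (by positivity) zero_le_one
            exact mul_le_mul_of_nonneg_left h5 (norm_nonneg _)
        _ = _ := one_mul _
  have hbd : ∀ N, ∑ k ∈ Finset.range N, ‖ψ (mulL (c k) (hc k) f)‖ ≤ ‖ψ‖ * (C * ‖f‖) := by
    intro N
    have h1 : ‖(∑ k ∈ Finset.range N, θ k • mulL (c k) (hc k) f : Hinf)‖ ≤ C * ‖f‖ := by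
      rw [Hinf.norm_le_iff _ (by positivity)]
      filter_upwards [hn N, hsum] with t h2 h3
      exact h2.trans (mul_le_mul_of_nonneg_right (h3 N) (norm_nonneg _))
    have h2 : ∑ k ∈ Finset.range N, ‖ψ (mulL (c k) (hc k) f)‖ =
        (ψ (∑ k ∈ Finset.range N, θ k • mulL (c k) (hc k) f)).re := by
      rw [map_sum, Complex.re_sum]
      apply Finset.sum_congr rfl
      intro k _
      rw [map_smul, smul_eq_mul, hθz]
    rw [h2]
    refine (Complex.re_le_norm _).trans ((ψ.le_opNorm _).trans ?_)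
    exact mul_le_mul_of_nonneg_left h1 (norm_nonneg ψ)
  exact (summable_of_sum_range_le (fun k => norm_nonneg _) hbd).tendsto_atTop_zero

end Pool.Agent.LibHinf
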