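import Mathlib
import Pool.Agent.LibHinf.Funcs

set_option autoImplicit false
open MeasureTheory AddCircle Filter Topology Metric
open scoped ENNReal ComplexConjugate InnerProductSpace

namespace Pool.Agent.LibHinf

/-- Bounded analytic functions dominated by a multiple of `1 / |1 + F|`. -/
noncomputable def VV (F : TT → ℂ) : Submodule ℂ Hinf where
  carrier := {w | ∃ C : ℝ, 0 ≤ C ∧ ∀ᵐ t ∂mm, ‖(w : Lp ℂ ∞ mm) t‖ * ‖1 + F t‖ ≤ C}
  zero_mem' := by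
    refine ⟨0, le_rfl, ?_⟩
    filter_upwards [Hinf.zero_coe] with t ht
    rw [ht, norm_zero, zero_mul]
  add_mem' := by
    rintro a b ⟨C, hC, h1⟩ ⟨D, hD, h2⟩
    refine ⟨C + D, by positivity, ?_⟩
    filter_upwards [h1, h2, Hinf.add_coe a b] with t a1 a2 a3
    rw [a3]
    calc ‖(a : Lp ℂ ∞ mm) t + (b : Lp ℂ ∞ mm) t‖ * ‖1 + F t‖
        ≤ (‖(a : Lp ℂ ∞ mm) t‖ + ‖(b : Lp ℂ ∞ mm) t‖) * ‖1 + F t‖ :=
          mul_le_mul_of_nonneg_right (norm_add_le _ _) (norm_nonneg _)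
      _ ≤ C + D := by rw [add_mul]; exact add_le_add a1 a2
  smul_mem' := by
    rintro c a ⟨C, hC, h1⟩
    refine ⟨‖c‖ * C, by positivity, ?_⟩
    filter_upwards [h1, Hinf.smul_coe c a] with t a1 a2
    rw [a2, norm_mul, mul_assoc]
    exact mul_le_mul_of_nonneg_left a1 (norm_nonneg _)

section
variable {F : TT → ℂ} (hF : IsPos F)

/-- The dyadic scale. -/
noncomputable def ek (k : ℕ) : ℝ := (1 / 2 : ℝ) ^ k

theorem ek_pos (k : ℕ) : 0 < ek k := by unfold ek; positivity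

theorem ek_le (k : ℕ) : ek k ≤ 1 := pow_le_one₀ (by norm_num) (by norm_num)

include hF in
theorem hb_b (k : ℕ) : HB (fun t => Bp (ek k) (F t) * Bp (ek k) (F t)) :=
  (Bf_HB hF (ek_pos k).le).mul (Bf_HB hF (ek_pos k).le)

include hF in
theorem hb_a (k : ℕ) : HB (fun t => (1 - Bp (ek k) (F t)) * (1 - Bp (ek k) (F t))) :=
  ((HB.const 1).sub (Bf_HB hF (ek_pos k).le)).mul ((HB.const 1).sub (Bf_HB hF (ek_pos k).le))

include hF in
theorem hb_c (k : ℕ) : HB (fun t => (1 - Bp (ek k) (F t)) * Bp (ek k) (F t)) :=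
  ((HB.const 1).sub (Bf_HB hF (ek_pos k).le)).mul (Bf_HB hF (ek_pos k).le)

/-- The perturbation `a_k f + b_k g - f`. -/
noncomputable def Uk (k : ℕ) (f g : Hinf) : Hinf :=
  mulL _ (hb_a hF k) f + mulL _ (hb_b hF k) g - f

theorem Uk_coe (k : ℕ) (f g : Hinf) : ((Uk hF k f g : Hinf) : Lp ℂ ∞ mm) =ᵐ[mm] fun t =>
    (1 - Bp (ek k) (F t)) * (1 - Bp (ek k) (F t)) * (f : Lp ℂ ∞ mm) t +
      Bp (ek k) (F t) * Bp (ek k) (F t) * (g : Lp ℂ ∞ mm) t - (f : Lp ℂ ∞ mm) t := by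
  unfold Uk
  filter_upwards [Hinf.sub_coe (mulL _ (hb_a hF k) f + mulL _ (hb_b hF k) g) f,
    Hinf.add_coe (mulL _ (hb_a hF k) f) (mulL _ (hb_b hF k) g), mulL_coe _ (hb_a hF k) f,
    mulL_coe _ (hb_b hF k) g] with t h1 h2 h3 h4
  rw [h1, h2, h3, h4]

theorem Uk_ball (k : ℕ) (f g : Hinf) (hf : ‖f‖ ≤ 1) (hg : ‖g‖ ≤ 1) : ‖f + Uk hF k f g‖ ≤ 1 := by
  rw [Hinf.norm_le_iff _ zero_le_one]
  filter_upwards [Hinf.add_coe f (Uk hF k f g), Uk_coe hF k f g, hF.2.1, nae f, nae g]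
    with t h1 h2 h3 h4 h5
  rw [h1, h2]
  have h6 := AB_sq h3 (ek_pos k).le
  set A := 1 - Bp (ek k) (F t)
  set B := Bp (ek k) (F t)
  have h7 : (f : Lp ℂ ∞ mm) t + (A * A * (f : Lp ℂ ∞ mm) t + B * B * (g : Lp ℂ ∞ mm) t -
      (f : Lp ℂ ∞ mm) t) = A * A * (f : Lp ℂ ∞ mm) t + B * B * (g : Lp ℂ ∞ mm) t := by ring
  rw [h7]
  refine (norm_add_le _ _).trans ?_
  rw [norm_mul, norm_mul, norm_mul, norm_mul]
  have h8 : ‖A‖ * ‖A‖ * ‖(f : Lp ℂ ∞ mm) t‖ ≤ ‖A‖ * ‖A‖ :=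
    mul_le_of_le_one_right (by positivity) (h4.trans hf)
  have h9 : ‖B‖ * ‖B‖ * ‖(g : Lp ℂ ∞ mm) t‖ ≤ ‖B‖ * ‖B‖ :=
    mul_le_of_le_one_right (by positivity) (h5.trans hg)
  nlinarith

theorem Uk_mem (k : ℕ) (f g : Hinf) : Uk hF k f g ∈ VV F := by
  have hnn : 0 ≤ 2 * ‖f‖ + ‖g‖ := by positivity
  refine ⟨(2 * ‖f‖ + ‖g‖) * (1 / ek k), mul_nonneg hnn (one_div_pos.2 (ek_pos k)).le, ?_⟩
  filter_upwards [Uk_coe hF k f g, hF.2.1, nae f, nae g] with t h2 h3 h4 h5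
  rw [h2]
  have h6 := Bp_mul_le h3 (ek_pos k) (ek_le k)
  have h7 := Bp_norm h3 (ek_pos k).le
  have h8 := Ap_le_one h3 (ek_pos k).le
  set B := Bp (ek k) (F t)
  have h9 : (1 - B) * (1 - B) * (f : Lp ℂ ∞ mm) t + B * B * (g : Lp ℂ ∞ mm) t -
      (f : Lp ℂ ∞ mm) t = B * (B * (g : Lp ℂ ∞ mm) t - ((1 - B) + 1) * (f : Lp ℂ ∞ mm) t) := by ring
  rw [h9, norm_mul]
  have h10 : ‖B * (g : Lp ℂ ∞ mm) t - ((1 - B) + 1) * (f : Lp ℂ ∞ mm) t‖ ≤ 2 * ‖f‖ + ‖g‖ := by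
    refine (norm_sub_le _ _).trans ?_
    rw [norm_mul, norm_mul]
    have h11 : ‖B‖ * ‖(g : Lp ℂ ∞ mm) t‖ ≤ 1 * ‖g‖ := mul_le_mul h7 h5 (norm_nonneg _) zero_le_one
    have h12 : ‖(1 - B) + 1‖ ≤ 2 := by
      refine (norm_add_le _ _).trans ?_
      rw [norm_one]
      linarith
    have h13 : ‖(1 - B) + 1‖ * ‖(f : Lp ℂ ∞ mm) t‖ ≤ 2 * ‖f‖ :=
      mul_le_mul h12 h4 (norm_nonneg _) zero_le_two
    linarith
  calc ‖B‖ * ‖B * (g : Lp ℂ ∞ mm) t - ((1 - B) + 1) * (f : Lp ℂ ∞ mm) t‖ * ‖1 + F t‖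
      = ‖B * (g : Lp ℂ ∞ mm) t - ((1 - B) + 1) * (f : Lp ℂ ∞ mm) t‖ * (‖B‖ * ‖1 + F t‖) := by ring
    _ ≤ (2 * ‖f‖ + ‖g‖) * (1 / ek k) := mul_le_mul h10 h6 (by positivity) hnn

theorem Uk_diff_ne (k : ℕ) (f : Hinf) (g : Hinf) (hg : ¬ ((g : Lp ℂ ∞ mm) =ᵐ[mm] fun _ => 0)) :
    Uk hF k f g ≠ Uk hF k f 0 := by
  intro h
  apply hg
  have h1 := Uk_coe hF k f g
  rw [h] at h1
  filter_upwards [h1, Uk_coe hF k f 0, Hinf.zero_coe, hF.2.1] with t h2 h3 h4 h5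
  rw [h3, h4, mul_zero, add_zero] at h2
  have h6 : Bp (ek k) (F t) * Bp (ek k) (F t) * (g : Lp ℂ ∞ mm) t = 0 := by
    linear_combination -h2
  have h7 : Bp (ek k) (F t) ≠ 0 := by
    unfold Bp
    exact inv_ne_zero (den_ne h5 (ek_pos k).le)
  exact (mul_eq_zero.1 h6).resolve_left (mul_ne_zero h7 h7)

/-- Multiplication by `b_k` as a continuous operator. -/
noncomputable def Mk (k : ℕ) : Hinf →L[ℂ] Hinf :=
  (mulL _ (hb_b hF k)).mkContinuous 1 (fun g => mulL_bound _ (hb_b hF k) zero_le_one (by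
      filter_upwards [hF.2.1] with t ht
      rw [norm_mul]
      exact mul_le_one₀ (Bp_norm ht (ek_pos k).le) (norm_nonneg _) (Bp_norm ht (ek_pos k).le)) g)

theorem Mk_norm (k : ℕ) : ‖Mk hF k‖ ≤ 1 := LinearMap.mkContinuous_norm_le _ zero_le_one _

theorem vanish {u : TT → ℝ} (huF : ∀ᵐ t ∂mm, (F t).re = u t) (f : Hinf) (hf : ‖f‖ ≤ 1)
    (hu : ∀ K : ℕ, ∃ r : ℝ, 0 < r ∧ r ≤ 1 ∧
      ∀ᵐ t ∂mm, 1 - r < ‖(f : Lp ℂ ∞ mm) t‖ → (K : ℝ) ≤ u t)
    (ψ : StrongDual ℂ Hinf)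
    (hψ : ∀ k (g : Hinf), ‖g‖ ≤ 1 → 0 ≤ (ψ (Uk hF k f g)).re) :
    ∀ w ∈ VV F, ψ w = 0 := by
  -- the functionals
  set χ : ℕ → StrongDual ℂ Hinf := fun k => -(ψ ∘L (Mk hF k)) with hχ
  have hχa : ∀ k g, χ k g = -ψ (mulL _ (hb_b hF k) g) := fun k g => rfl
  have hχn : ∀ k, ‖χ k‖ ≤ ‖ψ‖ := by
    intro k
    have h1 : ‖χ k‖ = ‖ψ ∘L (Mk hF k)‖ := ContinuousLinearMap.opNorm_neg _
    rw [h1]
    refine (ContinuousLinearMap.opNorm_comp_le ψ (Mk hF k)).trans ?_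
    exact mul_le_of_le_one_right (norm_nonneg ψ) (Mk_norm hF k)
  set δ : ℕ → ℝ := fun k => 2 * ‖ψ (mulL _ (hb_c hF k) f)‖ with hδ
  have hδlim : Tendsto δ atTop (𝓝 0) := by
    have h1 := uncond ψ f _ (hb_c hF) (C := 4) (by norm_num) (by
      filter_upwards [hF.2.1] with t ht N
      exact AB_sum ht N)
    simpa using h1.const_mul 2
  have hχδ : ∀ k, ‖χ k‖ ≤ (χ k f).re + δ k := by
    intro k
    have hsplit : mulL _ (hb_a hF k) f - f =
        -(mulL _ (hb_b hF k) f) - (2 : ℂ) • mulL _ (hb_c hF k) f := by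
      apply Hinf.ext
      filter_upwards [Hinf.sub_coe (mulL _ (hb_a hF k) f) f, mulL_coe _ (hb_a hF k) f,
        Hinf.sub_coe (-(mulL _ (hb_b hF k) f)) ((2 : ℂ) • mulL _ (hb_c hF k) f),
        Hinf.smul_coe (-1) (mulL _ (hb_b hF k) f), mulL_coe _ (hb_b hF k) f,
        Hinf.smul_coe 2 (mulL _ (hb_c hF k) f), mulL_coe _ (hb_c hF k) f] with t h1 h2 h3 h4 h5 h6 h7
      rw [h1, h2, h3, h6, h7]
      rw [neg_one_smul] at h4
      rw [h4, h5]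
      ring
    have hR : ∀ g : Hinf, ‖g‖ ≤ 1 → (χ k g).re ≤ (ψ (mulL _ (hb_a hF k) f - f)).re := by
      intro g hg
      have h1 := hψ k g hg
      have h2 : Uk hF k f g = (mulL _ (hb_a hF k) f - f) + mulL _ (hb_b hF k) g := by
        unfold Uk; abel
      rw [h2, map_add, Complex.add_re] at h1
      rw [hχa, Complex.neg_re]
      linarith
    have hR0 : 0 ≤ (ψ (mulL _ (hb_a hF k) f - f)).re := by
      have := hR 0 (by simp)
      simpa using this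
    have h1 : ‖χ k‖ ≤ (ψ (mulL _ (hb_a hF k) f - f)).re := by
      apply ContinuousLinearMap.opNorm_le_of_unit_norm (𝕜 := ℂ) hR0
      intro g hg
      obtain ⟨θ, hθ, hθz⟩ := exists_phase (χ k g)
      rw [← hθz]
      have h2 := hR (θ • g) (by rw [norm_smul, hg, mul_one]; exact hθ)
      rwa [map_smul, smul_eq_mul] at h2
    refine h1.trans ?_
    rw [hsplit, map_sub, map_neg, Complex.sub_re, map_smul, hχa]
    have h3 : -((2 : ℂ) • ψ (mulL _ (hb_c hF k) f)).re ≤ δ k := by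
      have h4 := Complex.abs_re_le_norm ((2 : ℂ) • ψ (mulL _ (hb_c hF k) f))
      rw [norm_smul, Complex.norm_ofNat] at h4
      exact (neg_le_abs _).trans h4
    linarith
  rintro w ⟨C, hC, hwC⟩
  -- bound for each K
  have hK : ∀ K : ℕ, ‖ψ w‖ ≤ ‖ψ‖ * (C / (1 + K)) := by
    intro K
    obtain ⟨r, hr, hr1, hrE⟩ := hu K
    have hstep : ∀ k, ‖ψ w‖ ≤ ‖ψ‖ * (C / (1 + K)) + δ k * (‖w‖ + 1) / r + ‖ψ‖ * (2 * ek k * C) := by
      intro k
      have h1 : w = mulL _ (hb_b hF k) w + (w - mulL _ (hb_b hF k) w) := by abel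
      have h2 : ‖w - mulL _ (hb_b hF k) w‖ ≤ 2 * ek k * C := by
        rw [Hinf.norm_le_iff _ (by have := (ek_pos k).le; positivity)]
        filter_upwards [Hinf.sub_coe w (mulL _ (hb_b hF k) w), mulL_coe _ (hb_b hF k) w, hwC,
          hF.2.1] with t a1 a2 a3 a4
        rw [a1, a2]
        have a5 := Ap_le a4 (ek_pos k).le
        have a6 := Bp_norm a4 (ek_pos k).le
        have a7 := norm_le_one_add a4
        set B := Bp (ek k) (F t)
        have a8 : (w : Lp ℂ ∞ mm) t - B * B * (w : Lp ℂ ∞ mm) t =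
            (1 - B) * (1 + B) * (w : Lp ℂ ∞ mm) t := by ring
        rw [a8, norm_mul, norm_mul]
        have a9 : ‖1 + B‖ ≤ 2 := by
          refine (norm_add_le _ _).trans ?_
          rw [norm_one]
          linarith
        have a10 : ‖1 - B‖ ≤ ek k * ‖1 + F t‖ :=
          a5.trans (mul_le_mul_of_nonneg_left a7 (ek_pos k).le)
        calc ‖1 - B‖ * ‖1 + B‖ * ‖(w : Lp ℂ ∞ mm) t‖
            ≤ (ek k * ‖1 + F t‖) * 2 * ‖(w : Lp ℂ ∞ mm) t‖ := by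
              apply mul_le_mul_of_nonneg_right _ (norm_nonneg _)
              exact mul_le_mul a10 a9 (norm_nonneg _)
                (mul_nonneg (ek_pos k).le (norm_nonneg _))
          _ = 2 * ek k * (‖(w : Lp ℂ ∞ mm) t‖ * ‖1 + F t‖) := by ring
          _ ≤ 2 * ek k * C := mul_le_mul_of_nonneg_left a3 (by have := (ek_pos k).le; positivity)
      have h3 : ‖ψ (mulL _ (hb_b hF k) w)‖ ≤ ‖ψ‖ * (C / (1 + K)) + δ k * (‖w‖ + 1) / r := by
        have h4 : ‖ψ (mulL _ (hb_b hF k) w)‖ = ‖χ k w‖ := by rw [hχa, norm_neg]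
        rw [h4]
        have h5 := norming_kill (χ k) f w (δ := δ k) (r := r) (M := ‖w‖ + 1) (η := C / (1 + K)) hf
          hr hr1 (by positivity) (by linarith) (by positivity) (by
            filter_upwards [hrE, hwC, huF, hF.2.1] with t a1 a2 a3 a4 a5
            have a6 : 1 + (K : ℝ) ≤ ‖1 + F t‖ := by
              have := Complex.re_le_norm (1 + F t)
              rw [Complex.add_re, Complex.one_re, a3] at this
              linarith [a1 a5]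
            rw [le_div_iff₀ (by positivity)]
            exact (mul_le_mul_of_nonneg_left a6 (norm_nonneg _)).trans a2) (hχδ k)
        refine h5.trans ?_
        have h6 : ‖χ k‖ * (C / (1 + K)) ≤ ‖ψ‖ * (C / (1 + K)) :=
          mul_le_mul_of_nonneg_right (hχn k) (by positivity)
        linarith
      have h4 : ‖ψ w‖ ≤ ‖ψ (mulL _ (hb_b hF k) w)‖ + ‖ψ (w - mulL _ (hb_b hF k) w)‖ := by
        conv_lhs => rw [h1, map_add]
        exact norm_add_le _ _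
      have h5 : ‖ψ (w - mulL _ (hb_b hF k) w)‖ ≤ ‖ψ‖ * (2 * ek k * C) :=
        (ψ.le_opNorm _).trans (mul_le_mul_of_nonneg_left h2 (norm_nonneg ψ))
      linarith
    have hlim : Tendsto (fun k => ‖ψ‖ * (C / (1 + K)) + δ k * (‖w‖ + 1) / r +
        ‖ψ‖ * (2 * ek k * C)) atTop (𝓝 (‖ψ‖ * (C / (1 + K)) + 0 * (‖w‖ + 1) / r +
        ‖ψ‖ * (2 * 0 * C))) := by
      have he : Tendsto ek atTop (𝓝 0) :=
        tendsto_pow_atTop_nhds_zero_of_lt_one (by norm_num) (by norm_num)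
      exact (tendsto_const_nhds.add ((hδlim.mul_const _).div_const _)).add
        (((he.const_mul 2).mul_const C).const_mul _)
    have := ge_of_tendsto' hlim hstep
    simpa using this
  have hlim : Tendsto (fun K : ℕ => ‖ψ‖ * (C / (1 + (K : ℝ)))) atTop (𝓝 (‖ψ‖ * (C * 0))) := by
    apply Tendsto.const_mul
    have h1 := (tendsto_one_div_add_atTop_nhds_zero_nat (𝕜 := ℝ)).const_mul C
    refine h1.congr fun K => ?_
    rw [add_comm]
    ring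
  have h0 := ge_of_tendsto' hlim hK
  rw [mul_zero, mul_zero] at h0
  exact norm_le_zero_iff.1 h0

end

end Pool.Agent.LibHinf
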