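import Mathlib
import Pool.Agent.LibHinf.Vanish
import Pool.Agent.LibHinf.Sep

set_option autoImplicit false
open MeasureTheory AddCircle Filter Topology Metric
open scoped ENNReal ComplexConjugate InnerProductSpace

namespace Pool.Agent.LibHinf

/-- A nonzero element of `H^∞` vanishes only on a null set. -/
theorem ne_zero_ae {g : Hinf} (hg : g ≠ 0) : ∀ᵐ t ∂mm, (g : Lp ℂ ∞ mm) t ≠ 0 := by
  by_contra hcon
  apply hg
  set E : Set TT := {t | (g : Lp ℂ ∞ mm) t = 0} with hE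
  have hEm : MeasurableSet E :=
    (Lp.stronglyMeasurable (g : Lp ℂ ∞ mm)).measurable (measurableSet_singleton 0)
  have hpos : 0 < mm E := by
    rw [pos_iff_ne_zero]
    intro h0
    apply hcon
    rw [ae_iff]
    simp only [ne_eq, not_not]
    exact h0
  have h1 := ana_unique (hbf g).1 (hbf g).2 hEm hpos (Eventually.of_forall fun t ht => ht)
  apply Hinf.ext
  exact h1.trans Hinf.zero_coe.symm

theorem pc_injective {p : Polynomial ℂ} (h : ∀ t, pc p t = 0) : p = 0 := by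
  apply Polynomial.eq_zero_of_infinite_isRoot
  have h0 : Infinite TT := by
    rw [(AddCircle.equivIco (2 * Real.pi) 0).infinite_iff]
    exact Set.Ico.infinite (by linarith [Real.two_pi_pos])
  have h1 : (Set.range ee).Infinite := by
    apply Set.infinite_range_of_injective
    have h2 : Function.Injective (toCircle (T := 2 * Real.pi)) :=
      AddCircle.injective_toCircle (Real.two_pi_pos.ne')
    intro a b hab
    apply h2
    unfold ee at hab
    rw [fourier_one, fourier_one] at hab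
    exact Subtype.ext hab
  refine h1.mono ?_
  rintro z ⟨t, rfl⟩
  exact h t

theorem exists_poly (Φ : Set (StrongDual ℂ Hinf)) (hΦ : Φ.Finite) (v : Hinf) :
    ∃ p : Polynomial ℂ, p ≠ 0 ∧ ∀ φ ∈ Φ, φ (mulL _ (HB.poly p) v) = 0 := by
  have : Finite Φ := hΦ.to_subtype
  set T : Polynomial ℂ →ₗ[ℂ] (Φ → ℂ) :=
    { toFun := fun p φ => φ.1 (mulL _ (HB.poly p) v)
      map_add' := by
        intro p q
        funext φ
        change φ.1 _ = φ.1 _ + φ.1 _
        rw [← map_add]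
        congr 1
        apply Hinf.ext
        filter_upwards [mulL_coe _ (HB.poly (p + q)) v, mulL_coe _ (HB.poly p) v,
          mulL_coe _ (HB.poly q) v, Hinf.add_coe (mulL _ (HB.poly p) v) (mulL _ (HB.poly q) v)]
          with t h1 h2 h3 h4
        rw [h1, h4, h2, h3, Polynomial.eval_add, add_mul]
      map_smul' := by
        intro c p
        funext φ
        change φ.1 _ = c • φ.1 _
        rw [← map_smul]
        congr 1
        apply Hinf.ext
        filter_upwards [mulL_coe _ (HB.poly (c • p)) v, mulL_coe _ (HB.poly p) v,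
          Hinf.smul_coe c (mulL _ (HB.poly p) v)] with t h1 h2 h3
        rw [h1, h3, h2, Polynomial.eval_smul, smul_eq_mul, mul_assoc] } with hT
  have hninj : ¬ Function.Injective T := by
    intro hinj
    have : Module.Finite ℂ (Polynomial ℂ) := Module.Finite.of_injective T hinj
    exact Polynomial.not_finite (R := ℂ) this
  rw [← LinearMap.ker_eq_bot, Submodule.eq_bot_iff] at hninj
  push Not at hninj
  obtain ⟨p, hp, hp0⟩ := hninj
  refine ⟨p, hp0, fun φ hφ => ?_⟩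
  exact congrFun (LinearMap.mem_ker.1 hp) ⟨φ, hφ⟩

/-- If `f` is not extreme in the ball of `H^∞`, it is not extreme in the ball of the constrained
space either. -/
theorem caseA (Φ : Set (StrongDual ℂ Hinf)) (hΦ : Φ.Finite) (f v : Hinf) (hv : v ≠ 0)
    (h1 : ‖f + v‖ ≤ 1) (h2 : ‖f - v‖ ≤ 1) :
    ∃ y : Hinf, y ≠ 0 ∧ (∀ φ ∈ Φ, φ y = 0) ∧ ‖f + y‖ ≤ 1 ∧ ‖f - y‖ ≤ 1 := by
  obtain ⟨p, hp0, hp⟩ := exists_poly Φ hΦ (mulL _ (hbf v) v)
  set w := mulL _ (HB.poly p) (mulL _ (hbf v) v) with hw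
  set s : ℝ := 1 / (2 * (‖pc p‖ + 1)) with hs
  have hs0 : 0 < s := by positivity
  have hwc : (w : Lp ℂ ∞ mm) =ᵐ[mm] fun t => pc p t * ((v : Lp ℂ ∞ mm) t * (v : Lp ℂ ∞ mm) t) := by
    filter_upwards [mulL_coe _ (HB.poly p) (mulL _ (hbf v) v), mulL_coe _ (hbf v) v] with t a1 a2
    rw [a1, a2]
    rfl
  have hyc : (((s : ℂ) • w : Hinf) : Lp ℂ ∞ mm) =ᵐ[mm] fun t =>
      s * (pc p t * ((v : Lp ℂ ∞ mm) t * (v : Lp ℂ ∞ mm) t)) := by
    filter_upwards [hwc, Hinf.smul_coe (s : ℂ) w] with t a1 a2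
    rw [a2, a1]
  have hbd : ∀ᵐ t ∂mm, ‖(((s : ℂ) • w : Hinf) : Lp ℂ ∞ mm) t‖ ≤ 1 - ‖(f : Lp ℂ ∞ mm) t‖ := by
    filter_upwards [hyc, nae (f + v), nae (f - v), Hinf.add_coe f v, Hinf.sub_coe f v]
      with t a1 a2 a3 a4 a5
    rw [a4] at a2
    rw [a5] at a3
    rw [a1, norm_mul, norm_mul, norm_mul, Complex.norm_real, Real.norm_eq_abs, abs_of_pos hs0]
    set a := (f : Lp ℂ ∞ mm) t
    set b := (v : Lp ℂ ∞ mm) t
    have h3 : ‖a + b‖ ≤ 1 := a2.trans h1
    have h4 : ‖a - b‖ ≤ 1 := a3.trans h2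
    have h5 := parallelogram_law_with_norm ℝ a b
    have h6 : ‖a‖ * ‖a‖ + ‖b‖ * ‖b‖ ≤ 1 := by nlinarith [norm_nonneg (a + b), norm_nonneg (a - b)]
    have h7 : ‖pc p t‖ ≤ ‖pc p‖ := (pc p).norm_coe_le_norm t
    have h8 : s * ‖pc p t‖ ≤ 1 / 2 := by
      rw [hs, div_mul_eq_mul_div, one_mul, div_le_div_iff₀ (by positivity) (by norm_num)]
      have := norm_nonneg (pc p)
      linarith
    have h9 : ‖a‖ ≤ 1 := by nlinarith [norm_nonneg a, norm_nonneg b, mul_nonneg (norm_nonneg b) (norm_nonneg b)]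
    calc s * (‖pc p t‖ * (‖b‖ * ‖b‖)) = (s * ‖pc p t‖) * (‖b‖ * ‖b‖) := by ring
      _ ≤ (1 / 2) * (‖b‖ * ‖b‖) := mul_le_mul_of_nonneg_right h8 (by positivity)
      _ ≤ 1 - ‖a‖ := by nlinarith [norm_nonneg a]
  refine ⟨(s : ℂ) • w, ?_, ?_, ?_, ?_⟩
  · intro h0
    rw [h0] at hyc
    have h3 : ∀ᵐ t ∂mm, pc p t = 0 := by
      filter_upwards [hyc, Hinf.zero_coe, ne_zero_ae hv] with t a1 a2 a3
      rw [a2] at a1
      have a4 : (s : ℂ) ≠ 0 := by exact_mod_cast hs0.ne'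
      have a5 := (mul_eq_zero.1 a1.symm).resolve_left a4
      exact (mul_eq_zero.1 a5).resolve_right (mul_ne_zero a3 a3)
    apply hp0
    apply pc_injective
    have h4 : (pc p : TT → ℂ) = 0 := by
      have h5 : (pc p : TT → ℂ) =ᵐ[mm] (0 : TT → ℂ) := h3
      exact Continuous.ae_eq_iff_eq mm (pc p).continuous continuous_const |>.1 h5
    intro t
    exact congrFun h4 t
  · intro φ hφ
    rw [map_smul, hp φ hφ, smul_zero]
  · rw [Hinf.norm_le_iff _ zero_le_one]
    filter_upwards [Hinf.add_coe f ((s : ℂ) • w), hbd] with t a1 a2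
    rw [a1]
    exact (norm_add_le _ _).trans (by linarith)
  · rw [Hinf.norm_le_iff _ zero_le_one]
    filter_upwards [Hinf.sub_coe f ((s : ℂ) • w), hbd] with t a1 a2
    rw [a1]
    exact (norm_sub_le _ _).trans (by linarith)

end Pool.Agent.LibHinf
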