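import Mathlib
import Pool.Agent.LibHinf.CaseA

set_option autoImplicit false
open MeasureTheory AddCircle Filter Topology Metric
open scoped ENNReal ComplexConjugate InnerProductSpace

namespace Pool.Agent.LibHinf

theorem prod_integrable (f g : Hinf) (E : Set TT) :
    Integrable (fun t => conj ((f : Lp ℂ ∞ mm) t) * (g : Lp ℂ ∞ mm) t) (mm.restrict E) := by
  have h1 : MemLp (fun t => conj ((f : Lp ℂ ∞ mm) t)) ∞ mm := (hbf f).1.star
  have h2 : MemLp (fun t => conj ((f : Lp ℂ ∞ mm) t) * (g : Lp ℂ ∞ mm) t) ∞ mm :=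
    (hbf g).1.mul (r := ∞) h1
  exact (h2.integrable le_top).restrict

/-- The exposing functional, as a linear map. -/
noncomputable def exL (f : Hinf) (E : Set TT) : Hinf →ₗ[ℂ] ℂ where
  toFun := fun g => (((mm E).toReal⁻¹ : ℝ) : ℂ) *
    ∫ t in E, conj ((f : Lp ℂ ∞ mm) t) * (g : Lp ℂ ∞ mm) t ∂mm
  map_add' := by
    intro g h
    rw [← mul_add, ← integral_add (prod_integrable f g E) (prod_integrable f h E)]
    congr 1
    apply integral_congr_ae
    filter_upwards [ae_restrict_of_ae (Hinf.add_coe g h)] with t ht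
    rw [ht, mul_add]
  map_smul' := by
    intro c g
    have h1 : ∫ t in E, conj ((f : Lp ℂ ∞ mm) t) * ((c • g : Hinf) : Lp ℂ ∞ mm) t ∂mm =
        c * ∫ t in E, conj ((f : Lp ℂ ∞ mm) t) * (g : Lp ℂ ∞ mm) t ∂mm := by
      rw [← integral_const_mul]
      apply integral_congr_ae
      filter_upwards [ae_restrict_of_ae (Hinf.smul_coe c g)] with t ht
      rw [ht]
      ring
    rw [h1, RingHom.id_apply, smul_eq_mul]
    ring

theorem exL_apply (f : Hinf) (E : Set TT) (g : Hinf) : exL f E g = (((mm E).toReal⁻¹ : ℝ) : ℂ) *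
    ∫ t in E, conj ((f : Lp ℂ ∞ mm) t) * (g : Lp ℂ ∞ mm) t ∂mm := rfl

theorem exL_bound (f : Hinf) (hf : ‖f‖ ≤ 1) {E : Set TT} (hE : MeasurableSet E)
    (hpos : 0 < mm E) (g : Hinf) : ‖exL f E g‖ ≤ 1 * ‖g‖ := by
  have hp : 0 < (mm E).toReal := ENNReal.toReal_pos hpos.ne' (measure_ne_top _ _)
  rw [exL_apply, norm_mul, Complex.norm_real, norm_inv, Real.norm_eq_abs, abs_of_pos hp,
    inv_mul_le_iff₀ hp, one_mul]
  have h1 : ‖∫ t in E, conj ((f : Lp ℂ ∞ mm) t) * (g : Lp ℂ ∞ mm) t ∂mm‖ ≤ ‖g‖ * mm.real E := by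
    apply norm_setIntegral_le_of_norm_le_const_ae' (measure_lt_top _ _)
    filter_upwards [nae f, nae g] with t h2 h3 _
    rw [norm_mul, Complex.norm_conj]
    calc ‖(f : Lp ℂ ∞ mm) t‖ * ‖(g : Lp ℂ ∞ mm) t‖ ≤ 1 * ‖g‖ :=
          mul_le_mul (h2.trans hf) h3 (norm_nonneg _) zero_le_one
      _ = ‖g‖ := one_mul _
  exact h1.trans (le_of_eq (mul_comm _ _))

theorem easy (f : Hinf) (hf : ‖f‖ ≤ 1) (hpos : 0 < mm {t | ‖(f : Lp ℂ ∞ mm) t‖ = 1}) :
    ∃ φ : StrongDual ℂ Hinf, ‖φ‖ ≤ 1 ∧ φ f = 1 ∧ ∀ y : Hinf, ‖y‖ ≤ 1 → φ y = 1 → y = f := by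
  set E : Set TT := {t | ‖(f : Lp ℂ ∞ mm) t‖ = 1} with hE
  have hEm : MeasurableSet E :=
    (Lp.stronglyMeasurable (f : Lp ℂ ∞ mm)).measurable.norm (measurableSet_singleton 1)
  have hp : 0 < (mm E).toReal := ENNReal.toReal_pos hpos.ne' (measure_ne_top _ _)
  have hpc : ((mm E).toReal : ℂ) ≠ 0 := by exact_mod_cast hp.ne'
  refine ⟨(exL f E).mkContinuous 1 (exL_bound f hf hEm hpos),
    LinearMap.mkContinuous_norm_le _ zero_le_one _, ?_, ?_⟩
  · change exL f E f = 1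
    rw [exL_apply]
    have h1 : ∫ t in E, conj ((f : Lp ℂ ∞ mm) t) * (f : Lp ℂ ∞ mm) t ∂mm = ∫ t in E, (1 : ℂ) ∂mm := by
      apply setIntegral_congr_fun hEm
      intro t ht
      have ht' : ‖(f : Lp ℂ ∞ mm) t‖ = 1 := ht
      change conj ((f : Lp ℂ ∞ mm) t) * (f : Lp ℂ ∞ mm) t = 1
      rw [mul_comm, Complex.mul_conj, Complex.normSq_eq_norm_sq, ht']
      norm_num
    rw [h1, setIntegral_const, Measure.real, Complex.real_smul, mul_one, Complex.ofReal_inv,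
      inv_mul_cancel₀ hpc]
  · intro y hy hyφ
    change exL f E y = 1 at hyφ
    rw [exL_apply, Complex.ofReal_inv] at hyφ
    have h1 : ∫ t in E, conj ((f : Lp ℂ ∞ mm) t) * (y : Lp ℂ ∞ mm) t ∂mm = (mm E).toReal := by
      rw [inv_mul_eq_iff_eq_mul₀ hpc, mul_one] at hyφ
      exact hyφ
    have hint := prod_integrable f y E
    have h2 : ∫ t in E, (1 - (conj ((f : Lp ℂ ∞ mm) t) * (y : Lp ℂ ∞ mm) t).re) ∂mm = 0 := by
      have hint2 : Integrable (fun t => (conj ((f : Lp ℂ ∞ mm) t) * (y : Lp ℂ ∞ mm) t).re)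
          (mm.restrict E) := hint.re
      rw [integral_sub (integrable_const _) hint2]
      have h3 := integral_re hint
      change ∫ t in E, (conj ((f : Lp ℂ ∞ mm) t) * (y : Lp ℂ ∞ mm) t).re ∂mm = (_ : ℂ).re at h3
      rw [h3, h1, setIntegral_const, Measure.real, Complex.ofReal_re, smul_eq_mul, mul_one, sub_self]
    have hnn : 0 ≤ᵐ[mm.restrict E] fun t => 1 - (conj ((f : Lp ℂ ∞ mm) t) * (y : Lp ℂ ∞ mm) t).re := by
      filter_upwards [ae_restrict_of_ae (nae f), ae_restrict_of_ae (nae y)] with t a1 a2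
      have a3 := Complex.re_le_norm (conj ((f : Lp ℂ ∞ mm) t) * (y : Lp ℂ ∞ mm) t)
      rw [norm_mul, Complex.norm_conj] at a3
      have a4 : ‖(f : Lp ℂ ∞ mm) t‖ * ‖(y : Lp ℂ ∞ mm) t‖ ≤ 1 :=
        mul_le_one₀ (a1.trans hf) (norm_nonneg _) (a2.trans hy)
      change (0 : ℝ) ≤ _
      linarith
    rw [integral_eq_zero_iff_of_nonneg_ae hnn ((integrable_const _).sub hint.re)] at h2
    have h3 : ∀ᵐ t ∂mm, t ∈ E → ((y - f : Hinf) : Lp ℂ ∞ mm) t = 0 := by
      have h4 := (ae_restrict_iff' hEm).1 h2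
      filter_upwards [h4, nae y, Hinf.sub_coe y f] with t a1 a2 a3 ht
      have a4 := a1 ht
      have a5 : (conj ((f : Lp ℂ ∞ mm) t) * (y : Lp ℂ ∞ mm) t).re = 1 := by
        change 1 - (conj ((f : Lp ℂ ∞ mm) t) * (y : Lp ℂ ∞ mm) t).re = 0 at a4
        linarith
      have ht' : ‖(f : Lp ℂ ∞ mm) t‖ = 1 := ht
      set z := conj ((f : Lp ℂ ∞ mm) t) * (y : Lp ℂ ∞ mm) t with hz
      have a6 : ‖z‖ ≤ 1 := by
        rw [hz, norm_mul, Complex.norm_conj, ht', one_mul]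
        exact a2.trans hy
      have a7 : z = 1 := by
        have a8 : z.re ^ 2 + z.im ^ 2 ≤ 1 := by
          have a9 : ‖z‖ ^ 2 ≤ 1 := pow_le_one₀ (norm_nonneg _) a6
          rw [← Complex.normSq_eq_norm_sq, Complex.normSq_apply] at a9
          nlinarith
        have a10 : z.im = 0 := by
          rw [a5] at a8
          nlinarith
        exact Complex.ext a5 a10
      have a8 : (f : Lp ℂ ∞ mm) t * conj ((f : Lp ℂ ∞ mm) t) = 1 := by
        rw [Complex.mul_conj, Complex.normSq_eq_norm_sq, ht']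
        norm_num
      rw [a3]
      have a9 : (y : Lp ℂ ∞ mm) t = (f : Lp ℂ ∞ mm) t := by
        calc (y : Lp ℂ ∞ mm) t = ((f : Lp ℂ ∞ mm) t * conj ((f : Lp ℂ ∞ mm) t)) * (y : Lp ℂ ∞ mm) t := by
              rw [a8, one_mul]
          _ = (f : Lp ℂ ∞ mm) t * z := by rw [hz]; ring
          _ = _ := by rw [a7, mul_one]
      rw [a9, sub_self]
    have h4 := ana_unique (hbf (y - f)).1 (hbf (y - f)).2 hEm hpos h3
    have h5 : y - f = 0 := Hinf.ext (h4.trans Hinf.zero_coe.symm)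
    exact sub_eq_zero.1 h5

end Pool.Agent.LibHinf
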