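import Mathlib
import Pool.Agent.LibHinf.CaseA

set_option autoImplicit false
open MeasureTheory AddCircle Filter Topology Metric
open scoped ENNReal ComplexConjugate InnerProductSpace

namespace Pool.Agent.LibHinf

/-- If `z₁ + z₂ = 2` with both in the closed unit disc then both are one. -/
theorem eq_one_of_sum {a b : ℂ} (ha : ‖a‖ ≤ 1) (hb : ‖b‖ ≤ 1) (h : a + b = 2) : a = 1 := by
  have h1 : a.re ≤ 1 := (Complex.re_le_norm a).trans ha
  have h2 : b.re ≤ 1 := (Complex.re_le_norm b).trans hb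
  have h3 : a.re + b.re = 2 := by
    have := congrArg Complex.re h
    simpa using this
  have h4 : a.re = 1 := by linarith
  have h5 : a.re ^ 2 + a.im ^ 2 ≤ 1 := by
    have h6 : ‖a‖ ^ 2 ≤ 1 := pow_le_one₀ (norm_nonneg _) ha
    rw [← Complex.normSq_eq_norm_sq, Complex.normSq_apply] at h6
    nlinarith
  have h6 : a.im = 0 := by nlinarith
  exact Complex.ext h4 h6

set_option maxHeartbeats 2000000 in
/-- The hard direction: exposing functionals exist only if `|f| = 1` on a set of positive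
measure. -/
theorem hard (Φ : Set (StrongDual ℂ Hinf)) (hΦ : Φ.Finite) (f : Hinf) (hfΦ : ∀ φ ∈ Φ, φ f = 0)
    (hf : ‖f‖ ≤ 1) (φ : StrongDual ℂ Hinf) (hφ : ‖φ‖ ≤ 1) (hφf : φ f = 1)
    (hexp : ∀ y : Hinf, (∀ φ ∈ Φ, φ y = 0) → ‖y‖ ≤ 1 → φ y = 1 → y = f) :
    0 < mm {t | ‖(f : Lp ℂ ∞ mm) t‖ = 1} := by
  rw [pos_iff_ne_zero]
  intro hm
  obtain ⟨u, hu2, hu0, huK⟩ := exists_u f hf hm
  obtain ⟨F, hF, huF⟩ := exists_pos hu2 (Eventually.of_forall hu0)
  -- `f` is extreme in the constrained ball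
  have hext : ∀ y : Hinf, (∀ φ ∈ Φ, φ y = 0) → ‖f + y‖ ≤ 1 → ‖f - y‖ ≤ 1 → y = 0 := by
    intro y hy h1 h2
    have h3 : ‖φ (f + y)‖ ≤ 1 := (φ.le_opNorm _).trans (mul_le_one₀ hφ (norm_nonneg _) h1)
    have h4 : ‖φ (f - y)‖ ≤ 1 := (φ.le_opNorm _).trans (mul_le_one₀ hφ (norm_nonneg _) h2)
    have h5 : φ (f + y) + φ (f - y) = 2 := by
      rw [map_add, map_sub, hφf]; ring
    have h6 := hexp (f + y) (fun ψ hψ => by rw [map_add, hfΦ ψ hψ, hy ψ hψ, add_zero]) h1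
      (eq_one_of_sum h3 h4 h5)
    exact left_eq_add.1 h6.symm
  have hnoA : ∀ v : Hinf, ‖f + v‖ ≤ 1 → ‖f - v‖ ≤ 1 → v = 0 := by
    intro v h1 h2
    by_contra hv
    obtain ⟨y, hy0, hyΦ, hy1, hy2⟩ := caseA Φ hΦ f v hv h1 h2
    exact hy0 (hext y hyΦ hy1 hy2)
  -- the functional kills `VV F`
  have hkill : ∀ w ∈ VV F, φ w = 0 := by
    intro w hw
    have h1 := vanish hF huF f hf huK (-φ) (by
      intro k g hg
      have h2 := Uk_ball hF k f g hf hg
      have h3 : ‖φ (f + Uk hF k f g)‖ ≤ 1 :=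
        (φ.le_opNorm _).trans (mul_le_one₀ hφ (norm_nonneg _) h2)
      have h4 := (Complex.re_le_norm _).trans h3
      rw [map_add, hφf, Complex.add_re, Complex.one_re] at h4
      change 0 ≤ (-(φ (Uk hF k f g))).re
      rw [Complex.neg_re]
      linarith) w hw
    change -(φ w) = 0 at h1
    exact neg_eq_zero.1 h1
  -- a nonzero admissible perturbation
  obtain ⟨u₀, hu₀V, hu₀b, hu₀n⟩ : ∃ u₀ : Hinf, u₀ ∈ VV F ∧ ‖f + u₀‖ ≤ 1 ∧ u₀ ≠ 0 := by
    have hone : ‖mk _ (HB.const 1)‖ ≤ 1 := by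
      rw [Hinf.norm_le_iff _ zero_le_one]
      filter_upwards [mk_coe _ (HB.const 1)] with t ht
      rw [ht, norm_one]
    have hne := Uk_diff_ne hF 0 f (mk _ (HB.const 1)) (by
      intro h
      have h1 : ∀ᵐ t ∂mm, (1 : ℂ) = 0 := by
        filter_upwards [h, mk_coe _ (HB.const 1)] with t h2 h3
        rw [← h3, h2]
      rw [ae_iff] at h1
      simp at h1)
    by_cases h0 : Uk hF 0 f 0 = 0
    · refine ⟨Uk hF 0 f (mk _ (HB.const 1)), Uk_mem hF 0 f _, Uk_ball hF 0 f _ hf hone, ?_⟩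
      rw [← h0]
      exact hne
    · exact ⟨Uk hF 0 f 0, Uk_mem hF 0 f _, Uk_ball hF 0 f _ hf (by simp), h0⟩
  -- finite dimensional separation
  have := hΦ.fintype
  set Λc : Hinf →L[ℂ] (Φ → ℂ) := ContinuousLinearMap.pi (fun ψ : Φ => ψ.1) with hΛc
  set Λ : VV F →ₗ[ℝ] (Φ → ℂ) := ((Λc : Hinf →ₗ[ℂ] (Φ → ℂ)).domRestrict (VV F)).restrictScalars ℝ
    with hΛ
  have hΛa : ∀ w : VV F, Λ w = Λc w := fun w => rfl
  set G : Set (VV F) := {w | ‖f + (w : Hinf)‖ ≤ 1} with hG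
  have hGc : Convex ℝ G := by
    intro a ha b hb s t hs ht hst
    change ‖f + ((s • a + t • b : VV F) : Hinf)‖ ≤ 1
    have h1 : f + ((s • a + t • b : VV F) : Hinf) = s • (f + (a : Hinf)) + t • (f + (b : Hinf)) := by
      have h2 : ((s • a + t • b : VV F) : Hinf) = s • (a : Hinf) + t • (b : Hinf) := rfl
      rw [h2, smul_add, smul_add]
      have h3 : f = s • f + t • f := by rw [← add_smul, hst, one_smul]
      conv_lhs => rw [h3]
      abel
    rw [h1]
    refine (norm_add_le _ _).trans ?_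
    rw [norm_smul, norm_smul, Real.norm_eq_abs, Real.norm_eq_abs, abs_of_nonneg hs,
      abs_of_nonneg ht]
    have ha' : ‖f + (a : Hinf)‖ ≤ 1 := ha
    have hb' : ‖f + (b : Hinf)‖ ≤ 1 := hb
    nlinarith
  have hG0 : (0 : VV F) ∈ G := by
    change ‖f + ((0 : VV F) : Hinf)‖ ≤ 1
    rw [Submodule.coe_zero, add_zero]
    exact hf
  obtain ⟨t, ht0, ht1, w, hwG, hwΛ⟩ := separation Λ G hGc hG0 (by
    intro ℓ hℓ w
    have h1 : ∀ z : Φ → ℂ, (Module.Dual.extendRCLike (𝕜 := ℂ) ℓ z).re = ℓ z := fun z =>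
      Module.Dual.re_extendRCLike_apply (𝕜 := ℂ) ℓ z
    set ψ : StrongDual ℂ Hinf :=
      (LinearMap.toContinuousLinearMap (Module.Dual.extendRCLike (𝕜 := ℂ) ℓ)) ∘L Λc with hψ
    have hψa : ∀ x : Hinf, (ψ x).re = ℓ (Λc x) := fun x => h1 (Λc x)
    have h2 := vanish hF huF f hf huK ψ (by
      intro k g hg
      rw [hψa]
      exact hℓ ⟨Uk hF k f g, Uk_mem hF k f g⟩ (Uk_ball hF k f g hf hg)) w w.2
    have h3 := hψa w
    rw [h2, Complex.zero_re] at h3
    exact h3.symm) ⟨u₀, hu₀V⟩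
  -- combine
  have hsum : Λc ((w : Hinf) + t • u₀) = 0 := by
    rw [map_add]
    have h1 : Λc (t • u₀) = t • Λc u₀ := Λc.map_smul (t : ℂ) u₀
    rw [h1]
    have h2 : Λc (w : Hinf) = -(t • Λc u₀) := hwΛ
    rw [h2, neg_add_cancel]
  set y : Hinf := (1 / (1 + t)) • ((w : Hinf) + t • u₀) with hy
  have hyΦ : ∀ ψ ∈ Φ, ψ y = 0 := by
    intro ψ hψ
    have h1 : ψ ((w : Hinf) + t • u₀) = 0 := congrFun hsum ⟨ψ, hψ⟩
    have h2 : y = ((1 / (1 + t) : ℝ) : ℂ) • ((w : Hinf) + t • u₀) := rfl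
    rw [h2, map_smul, h1, smul_zero]
  have hyb : ‖f + y‖ ≤ 1 := by
    have h1 : f + y = (1 / (1 + t)) • (f + (w : Hinf)) + (t / (1 + t)) • (f + u₀) := by
      have h2 : f = (1 / (1 + t)) • f + (t / (1 + t)) • f := by
        rw [← add_smul, ← add_div, div_self (by positivity), one_smul]
      rw [hy]
      conv_lhs => rw [h2]
      rw [smul_add, smul_add, smul_add, smul_smul, one_div_mul_eq_div]
      abel
    rw [h1]
    refine (norm_add_le _ _).trans ?_
    rw [norm_smul, norm_smul, Real.norm_eq_abs, Real.norm_eq_abs,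
      abs_of_nonneg (by positivity : (0 : ℝ) ≤ 1 / (1 + t)),
      abs_of_nonneg (by positivity : (0 : ℝ) ≤ t / (1 + t))]
    have h3 : ‖f + (w : Hinf)‖ ≤ 1 := hwG
    calc 1 / (1 + t) * ‖f + (w : Hinf)‖ + t / (1 + t) * ‖f + u₀‖
        ≤ 1 / (1 + t) * 1 + t / (1 + t) * 1 :=
          add_le_add (mul_le_mul_of_nonneg_left h3 (by positivity))
            (mul_le_mul_of_nonneg_left hu₀b (by positivity))
      _ = 1 := by field_simp
  have hyφ : φ (f + y) = 1 := by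
    have h1 : φ ((w : Hinf) + t • u₀) = 0 := by
      rw [map_add, hkill _ w.2, zero_add]
      have h2 : t • u₀ = (t : ℂ) • u₀ := rfl
      rw [h2, map_smul, hkill _ hu₀V, smul_zero]
    have h2 : y = ((1 / (1 + t) : ℝ) : ℂ) • ((w : Hinf) + t • u₀) := rfl
    rw [map_add, hφf, h2, map_smul, h1, smul_zero, add_zero]
  have hy0 : y = 0 := by
    have h1 := hexp (f + y) (fun ψ hψ => by rw [map_add, hfΦ ψ hψ, hyΦ ψ hψ, add_zero]) hyb hyφ
    exact left_eq_add.1 h1.symm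
  have hw : (w : Hinf) = -(t • u₀) := by
    have h1 : (w : Hinf) + t • u₀ = 0 := by
      have h2 : (1 + t) • y = (w : Hinf) + t • u₀ := by
        rw [hy, smul_smul, mul_one_div_cancel (by positivity), one_smul]
      rw [← h2, hy0, smul_zero]
    exact eq_neg_of_add_eq_zero_left h1
  have hfin : t • u₀ = 0 := by
    apply hnoA
    · have h1 : f + t • u₀ = (1 - t) • f + t • (f + u₀) := by
        rw [sub_smul, one_smul, smul_add]; abel
      rw [h1]
      refine (norm_add_le _ _).trans ?_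
      rw [norm_smul, norm_smul, Real.norm_eq_abs, Real.norm_eq_abs,
        abs_of_nonneg (by linarith : (0 : ℝ) ≤ 1 - t), abs_of_pos ht0]
      nlinarith
    · have h1 : ‖f + (w : Hinf)‖ ≤ 1 := hwG
      rw [hw, ← sub_eq_add_neg] at h1
      exact h1
  rcases smul_eq_zero.1 hfin with h | h
  · exact ht0.ne' h
  · exact hu₀n h

end Pool.Agent.LibHinf
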